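import Pool.Agent.Helper83_TruthDef.Enum

set_option autoImplicit false

/-!
# From formulas to codes and back
-/

namespace Pool.Agent.Helper83_TruthDef

open FirstOrder FirstOrder.Language Encodable

/-! ### Derived connectives on codes -/

def cnot (a : ℕ) : ℕ := cimp a (cfls 0)
def cand (a b : ℕ) : ℕ := cnot (cimp a (cnot b))
def cex (i a : ℕ) : ℕ := cnot (call i (cnot a))
def cands (l : List ℕ) : ℕ := l.foldr cand (ceq 0 0)
/-- a block of existential quantifiers over the variables `y, ..., y + n - 1` -/
def exN : ℕ → ℕ → ℕ → ℕ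
  | _, 0, b => b
  | y, n + 1, b => cex y (exN (y + 1) n b)

section

variable {M : Type} {R : ℕ → List M → Prop} {m0 : M} {v : ℕ → M}

theorem sat_not (a : ℕ) : Sat R m0 (cnot a) v ↔ ¬ Sat R m0 a v := by
  unfold cnot
  rw [sat_imp]
  have := sat_fls (R := R) (m0 := m0) (v := v) 0
  tauto

theorem sat_and (a b : ℕ) : Sat R m0 (cand a b) v ↔ Sat R m0 a v ∧ Sat R m0 b v := by
  unfold cand
  rw [sat_not, sat_imp, sat_not]
  tauto

theorem sat_ex (i a : ℕ) :
    Sat R m0 (cex i a) v ↔ ∃ m, Sat R m0 a (Function.update v i m) := by
  unfold cex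
  rw [sat_not, sat_all]
  simp only [sat_not]
  push Not
  rfl

theorem sat_ands (l : List ℕ) : Sat R m0 (cands l) v ↔ ∀ a ∈ l, Sat R m0 a v := by
  induction l with
  | nil => simp [cands, sat_eq]
  | cons a l ih =>
    have : cands (a :: l) = cand a (cands l) := rfl
    rw [this, sat_and, ih]
    simp

theorem sat_exN (y n b : ℕ) : ∀ v : ℕ → M, Sat R m0 (exN y n b) v ↔
    ∃ w : ℕ → M, (∀ j, (j < y ∨ y + n ≤ j) → w j = v j) ∧ Sat R m0 b w := by
  induction n generalizing y with
  | zero =>
    intro v
    constructor
    · intro h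
      exact ⟨v, fun _ _ => rfl, h⟩
    · rintro ⟨w, hw, h⟩
      have : w = v := funext fun j => hw j (by omega)
      rw [← this]
      exact h
  | succ n ih =>
    intro v
    have : exN y (n + 1) b = cex y (exN (y + 1) n b) := rfl
    rw [this, sat_ex]
    constructor
    · rintro ⟨m, hm⟩
      rw [ih] at hm
      obtain ⟨w, hw, h⟩ := hm
      refine ⟨w, fun j hj => ?_, h⟩
      rw [hw j (by omega), Function.update_of_ne (by omega)]
    · rintro ⟨w, hw, h⟩
      refine ⟨w y, ?_⟩
      rw [ih]
      refine ⟨w, fun j hj => ?_, h⟩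
      by_cases hjy : j = y
      · subst hjy
        simp
      · rw [Function.update_of_ne hjy, hw j (by omega)]

end

theorem map_range'_eq {M : Type} (w : ℕ → M) (b n : ℕ) :
    (List.range' b n).map w = List.ofFn fun i : Fin n => w (b + i) := by
  apply List.ext_getElem
  · simp
  · intro i h1 h2
    simp

/-! ### From formulas to codes -/

section Tr

variable {L : FirstOrder.Language.{0, 0}} (fn : ∀ n : ℕ, L.Functions n → ℕ)

/-- code of `x_y = t` -/
def trT {γ : Type} (s : γ → ℕ) : L.Term γ → ℕ → ℕ
  | .var i, y => ceq y (s i)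
  | .func (l := n) f ts, y => exN (y + 1) n
      (cand (cands (List.ofFn fun i : Fin n => trT s (ts i) (y + 1 + i)))
        (catom (fn _ f) (y :: List.range' (y + 1) n)))

variable (κ : ∀ n : ℕ, L.Relations n → ℕ)

/-- names of the variables -/
def nms {α : Type} (nm : α → ℕ) (b n : ℕ) : α ⊕ Fin n → ℕ := Sum.elim nm fun i => b + i

/-- code of a formula; a relation symbol `r` is replaced by the formula coded by `κ r` -/
def tr {α : Type} (nm : α → ℕ) (b : ℕ) : ∀ {n : ℕ}, L.BoundedFormula α n → ℕ
  | _, .falsum => cfls 0
  | n, .equal t₁ t₂ => exN (b + n) 2 (cand (trT fn (nms nm b n) t₁ (b + n))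
      (cand (trT fn (nms nm b n) t₂ (b + n + 1)) (ceq (b + n) (b + n + 1))))
  | n, .rel (l := l) r ts => exN (b + n) l
      (cand (cands (List.ofFn fun i : Fin l => trT fn (nms nm b n) (ts i) (b + n + i)))
        (csub (List.range' (b + n) l) (κ _ r)))
  | _, .imp φ ψ => cimp (tr nm b φ) (tr nm b ψ)
  | n, .all φ => call (b + n) (tr nm b φ)

variable {M : Type} [L.Structure M] {R : ℕ → List M → Prop} {m0 : M}

/-- the relation `R` describes the functions of the structure -/
def FunOK (M : Type) [L.Structure M] (R : ℕ → List M → Prop) : Prop :=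
  ∀ (n : ℕ) (f : L.Functions n) (g : Fin n → M) (y : M),
    R (fn n f) (y :: List.ofFn g) ↔ y = Structure.funMap f g

theorem trT_sat (hf : FunOK fn M R) {γ : Type} (s : γ → ℕ) (t : L.Term γ) :
    ∀ (y : ℕ) (w : ℕ → M), (∀ i, s i < y) →
      (Sat R m0 (trT fn s t y) w ↔ w y = t.realize (fun i => w (s i))) := by
  induction t with
  | var i =>
    intro y w _
    rw [trT, sat_eq]
    rfl
  | @func n f ts ih =>
    intro y w hy
    rw [trT, sat_exN]
    have hs : ∀ w' : ℕ → M, (∀ j, (j < y + 1 ∨ y + 1 + n ≤ j) → w' j = w j) →
        (fun i => w' (s i)) = fun i => w (s i) := by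
      intro w' hw'
      funext i
      exact hw' _ (Or.inl (by have := hy i; omega))
    have key : ∀ w' : ℕ → M, (∀ j, (j < y + 1 ∨ y + 1 + n ≤ j) → w' j = w j) →
        (Sat R m0 (cand (cands (List.ofFn fun i : Fin n =>
            trT fn s (ts i) (y + 1 + i)))
          (catom (fn _ f) (y :: List.range' (y + 1) n))) w' ↔
        ((∀ i : Fin n, w' (y + 1 + i) = (ts i).realize (fun i => w (s i))) ∧
          w y = Structure.funMap f (fun i : Fin n => w' (y + 1 + i)))) := by
      intro w' hw'
      rw [sat_and, sat_ands, sat_atom, List.map_cons, map_range'_eq, hf n f,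
        hw' y (Or.inl (by omega))]
      refine and_congr ?_ Iff.rfl
      constructor
      · intro h i
        have := (ih i (y + 1 + i) w' (fun j => by have := hy j; omega)).1
          (h _ (List.mem_ofFn.2 ⟨i, rfl⟩))
        rw [this, hs w' hw']
      · intro h a ha
        obtain ⟨i, rfl⟩ := List.mem_ofFn.1 ha
        refine (ih i (y + 1 + i) w' (fun j => by have := hy j; omega)).2 ?_
        rw [h i, hs w' hw']
    constructor
    · rintro ⟨w', hw', h⟩
      obtain ⟨h1, h2⟩ := (key w' hw').1 h
      rw [h2, Term.realize_func]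
      congr 1
      funext i
      exact h1 i
    · intro h
      let w' : ℕ → M := fun j => if h : y + 1 ≤ j ∧ j < y + 1 + n then
        (ts ⟨j - (y + 1), by omega⟩).realize (fun i => w (s i)) else w j
      have hw' : ∀ j, (j < y + 1 ∨ y + 1 + n ≤ j) → w' j = w j := by
        intro j hj
        simp only [w']
        rw [dif_neg (by omega)]
      have hw2 : ∀ i : Fin n, w' (y + 1 + i) = (ts i).realize (fun i => w (s i)) := by
        intro i
        simp only [w']
        rw [dif_pos ⟨by omega, by omega⟩]
        congr 2
        apply Fin.ext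
        simp
      refine ⟨w', hw', (key w' hw').2 ⟨hw2, ?_⟩⟩
      rw [h, Term.realize_func]
      congr 1
      funext i
      exact (hw2 i).symm

/-- the codes `κ` describe the relations of the structure -/
def RelOK (M : Type) [L.Structure M] (R : ℕ → List M → Prop) (m0 : M) : Prop :=
  ∀ (n : ℕ) (r : L.Relations n) (g : Fin n → M),
    Sat R m0 (κ _ r) (fun i => (List.ofFn g).getD i m0) ↔ Structure.RelMap r g

theorem tr_sat (hf : FunOK fn M R)
    (hr : RelOK κ M R m0) {α : Type} (nm : α → ℕ)
    (b : ℕ) (hb : ∀ a, nm a < b) {n : ℕ} (φ : L.BoundedFormula α n) :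
    ∀ w : ℕ → M, Sat R m0 (tr fn κ nm b φ) w ↔
      φ.Realize (fun a => w (nm a)) (fun i : Fin n => w (b + i)) := by
  have hnm : ∀ n (a : α ⊕ Fin n), nms nm b n a < b + n := by
    rintro n (a | i)
    · exact lt_of_lt_of_le (hb a) (by omega)
    · simp [nms]
  have hval : ∀ n (w : ℕ → M), (fun a => w (nms nm b n a)) =
      Sum.elim (fun a => w (nm a)) (fun i : Fin n => w (b + i)) := by
    intro n w
    funext a
    rcases a with a | i <;> rfl
  induction φ with
  | falsum =>
    intro w
    rw [tr]
    simp only [sat_fls, false_iff]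
    exact id
  | @equal n t₁ t₂ =>
    intro w
    rw [tr, sat_exN]
    have key : ∀ w' : ℕ → M, (∀ j, (j < b + n ∨ b + n + 2 ≤ j) → w' j = w j) →
        (Sat R m0 (cand (trT fn (nms nm b n) t₁ (b + n))
          (cand (trT fn (nms nm b n) t₂ (b + n + 1))
            (ceq (b + n) (b + n + 1)))) w' ↔
        (w' (b + n) = t₁.realize (fun a => w (nms nm b n a)) ∧
          w' (b + n + 1) = t₂.realize (fun a => w (nms nm b n a)) ∧
          w' (b + n) = w' (b + n + 1))) := by
      intro w' hw'
      have hs : (fun a => w' (nms nm b n a)) = fun a => w (nms nm b n a) := by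
        funext a
        exact hw' _ (Or.inl (hnm n a))
      rw [sat_and, sat_and, sat_eq, trT_sat fn hf _ _ _ _ (hnm n),
        trT_sat fn hf _ _ _ _ (fun i => by have := hnm n i; omega), hs]
    constructor
    · rintro ⟨w', hw', h⟩
      obtain ⟨h1, h2, h3⟩ := (key w' hw').1 h
      change t₁.realize _ = t₂.realize _
      rw [← hval, ← h1, ← h2, h3]
    · intro h
      change t₁.realize _ = t₂.realize _ at h
      rw [← hval] at h
      refine ⟨fun j => if j = b + n then t₁.realize (fun a => w (nms nm b n a))
        else if j = b + n + 1 then t₂.realize (fun a => w (nms nm b n a)) else w j, ?_, ?_⟩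
      · intro j hj
        beta_reduce
        rw [if_neg (by omega), if_neg (by omega)]
      · rw [key]
        · refine ⟨by simp, by simp, ?_⟩
          simp [h]
        · intro j hj
          beta_reduce
          rw [if_neg (by omega), if_neg (by omega)]
  | @rel n l r ts =>
    intro w
    rw [tr, sat_exN]
    have key : ∀ w' : ℕ → M, (∀ j, (j < b + n ∨ b + n + l ≤ j) → w' j = w j) →
        (Sat R m0 (cand (cands (List.ofFn fun i : Fin l =>
            trT fn (nms nm b n) (ts i) (b + n + i)))
          (csub (List.range' (b + n) l) (κ _ r))) w' ↔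
        ((∀ i : Fin l, w' (b + n + i) = (ts i).realize (fun a => w (nms nm b n a))) ∧
          Structure.RelMap r (fun i : Fin l => w' (b + n + i)))) := by
      intro w' hw'
      have hs : (fun a => w' (nms nm b n a)) = fun a => w (nms nm b n a) := by
        funext a
        exact hw' _ (Or.inl (hnm n a))
      rw [sat_and, sat_ands, sat_sub, map_range'_eq, hr l r]
      refine and_congr ?_ Iff.rfl
      constructor
      · intro h i
        have := (trT_sat fn hf (m0 := m0) (nms nm b n) (ts i) (b + n + i) w'
          (fun j => by have := hnm n j; omega)).1 (h _ (List.mem_ofFn.2 ⟨i, rfl⟩))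
        rw [this, hs]
      · intro h a ha
        obtain ⟨i, rfl⟩ := List.mem_ofFn.1 ha
        refine (trT_sat fn hf (m0 := m0) (nms nm b n) (ts i) (b + n + i) w'
          (fun j => by have := hnm n j; omega)).2 ?_
        rw [h i, hs]
    constructor
    · rintro ⟨w', hw', h⟩
      obtain ⟨h1, h2⟩ := (key w' hw').1 h
      change Structure.RelMap r fun i => (ts i).realize _
      rw [← hval]
      have : (fun i : Fin l => w' (b + n + i)) =
          fun i => (ts i).realize (fun a => w (nms nm b n a)) := funext h1
      rw [this] at h2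
      exact h2
    · intro h
      change Structure.RelMap r (fun i => (ts i).realize _) at h
      rw [← hval] at h
      let w' : ℕ → M := fun j => if h : b + n ≤ j ∧ j < b + n + l then
        (ts ⟨j - (b + n), by omega⟩).realize (fun a => w (nms nm b n a)) else w j
      have hw' : ∀ j, (j < b + n ∨ b + n + l ≤ j) → w' j = w j := by
        intro j hj
        simp only [w']
        rw [dif_neg (by omega)]
      have hw2 : ∀ i : Fin l, w' (b + n + i) = (ts i).realize (fun a => w (nms nm b n a)) := by
        intro i
        simp only [w']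
        rw [dif_pos ⟨by omega, by omega⟩]
        congr 2
        apply Fin.ext
        simp
      refine ⟨w', hw', (key w' hw').2 ⟨hw2, ?_⟩⟩
      have : (fun i : Fin l => w' (b + n + i)) =
          fun i => (ts i).realize (fun a => w (nms nm b n a)) := funext hw2
      rw [this]
      exact h
  | imp φ ψ ih1 ih2 =>
    intro w
    rw [tr, sat_imp, ih1 w, ih2 w]
    rfl
  | @all n φ ih =>
    intro w
    rw [tr, sat_all]
    change _ ↔ ∀ x : M, φ.Realize _ (Fin.snoc _ x)
    refine forall_congr' fun m => ?_
    rw [ih]
    have e1 : (fun a => Function.update w (b + n) m (nm a)) = fun a => w (nm a) := by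
      funext a
      rw [Function.update_of_ne]
      have := hb a
      omega
    have e2 : (fun i : Fin (n + 1) => Function.update w (b + n) m (b + i)) =
        Fin.snoc (fun i : Fin n => w (b + i)) m := by
      funext i
      refine Fin.lastCases ?_ (fun i => ?_) i
      · simp
      · rw [Fin.snoc_castSucc, Fin.val_castSucc, Function.update_of_ne (by omega)]
    rw [e1, e2]

/-! ### Primitive recursiveness in the parameter -/

theorem prim_cnot {δ : Type} [Primcodable δ] {f : δ → ℕ} (hf : Primrec f) :
    Primrec fun x => cnot (f x) := prim_cimp hf (Primrec.const _)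

theorem prim_cand {δ : Type} [Primcodable δ] {f g : δ → ℕ} (hf : Primrec f) (hg : Primrec g) :
    Primrec fun x => cand (f x) (g x) := prim_cnot (prim_cimp hf (prim_cnot hg))

theorem prim_cex {δ : Type} [Primcodable δ] (i : ℕ) {f : δ → ℕ} (hf : Primrec f) :
    Primrec fun x => cex i (f x) := prim_cnot (prim_call (Primrec.const i) (prim_cnot hf))

theorem prim_exN {δ : Type} [Primcodable δ] (n : ℕ) {f : δ → ℕ} (hf : Primrec f) :
    ∀ y, Primrec fun x => exN y n (f x) := by
  induction n with
  | zero => intro y; exact hf
  | succ n ih =>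
    intro y
    exact prim_cex y (ih (y + 1))

theorem prim_tr {δ : Type} [Primcodable δ] (κ : δ → ∀ n : ℕ, L.Relations n → ℕ)
    (hκ : ∀ n r, Primrec fun x => κ x n r) {α : Type} (nm : α → ℕ) (b : ℕ) {n : ℕ}
    (φ : L.BoundedFormula α n) : Primrec fun x => tr fn (κ x) nm b φ := by
  induction φ with
  | falsum => exact Primrec.const _
  | equal t₁ t₂ => exact Primrec.const _
  | rel r ts =>
    simp only [tr]
    refine prim_exN _ ?_ _
    refine prim_cand (Primrec.const _) ?_
    exact prim_csub (Primrec.const _) (hκ _ r)
  | imp φ ψ ih1 ih2 =>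
    simp only [tr]
    exact prim_cimp ih1 ih2
  | all φ ih =>
    simp only [tr]
    exact prim_call (Primrec.const _) ih

end Tr

/-! ### From codes to formulas -/

section Back

variable {L : FirstOrder.Language.{0, 0}} (fn : ∀ n : ℕ, L.Functions n → ℕ)
  (rn : ∀ n : ℕ, L.Relations n → ℕ)

/-- the canonical relational structure of an `L`-structure -/
def RM (M : Type) [L.Structure M] (j : ℕ) (l : List M) : Prop :=
  (∃ (n : ℕ) (f : L.Functions n) (g : Fin n → M), j = fn n f ∧
    l = Structure.funMap f g :: List.ofFn g) ∨
  (∃ (n : ℕ) (r : L.Relations n) (g : Fin n → M), j = rn n r ∧ l = List.ofFn g ∧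
    Structure.RelMap r g)

/-- the numbering of the symbols is injective -/
structure NumOK : Prop where
  fn_inj : ∀ n m (f : L.Functions n) (g : L.Functions m), fn n f = fn m g → n = m ∧ HEq f g
  rn_inj : ∀ n m (f : L.Relations n) (g : L.Relations m), rn n f = rn m g → n = m ∧ HEq f g
  disj : ∀ n m (f : L.Functions n) (g : L.Relations m), fn n f ≠ rn m g

variable {fn rn}

theorem funOK_RM (h : NumOK fn rn) (M : Type) [L.Structure M] : FunOK fn M (RM fn rn M) := by
  intro n f g y
  constructor
  · rintro (⟨m, f', g', hj, hl⟩ | ⟨m, r, g', hj, -⟩)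
    · obtain ⟨rfl, hf⟩ := h.fn_inj _ _ _ _ hj
      obtain rfl := eq_of_heq hf
      rw [List.cons.injEq] at hl
      have : g = g' := List.ofFn_injective hl.2
      rw [hl.1, this]
    · exact absurd hj (h.disj _ _ _ _)
  · rintro rfl
    exact Or.inl ⟨n, f, g, rfl, rfl⟩

theorem relOK_RM (h : NumOK fn rn) (M : Type) [L.Structure M] (m0 : M) :
    RelOK (fun n r => catom (rn n r) (List.range n)) M (RM fn rn M) m0 := by
  intro n r g
  have e : (List.range n).map (fun i => (List.ofFn g).getD i m0) = List.ofFn g := by
    apply List.ext_getElem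
    · simp
    · intro i h1 h2
      simp only [List.getElem_map, List.getElem_range]
      rw [List.getD_eq_getElem _ _ h2]
  rw [sat_atom, e]
  constructor
  · rintro (⟨m, f, g', hj, -⟩ | ⟨m, r', g', hj, hl, hr⟩)
    · exact absurd hj.symm (h.disj _ _ _ _)
    · obtain ⟨rfl, hf⟩ := h.rn_inj _ _ _ _ hj
      obtain rfl := eq_of_heq hf
      have : g = g' := List.ofFn_injective hl
      rw [this]
      exact hr
  · intro hr
    exact Or.inr ⟨n, r, g, rfl, rfl, hr⟩

theorem ofFn_getElem' {M : Type} (l : List M) : l = List.ofFn fun i : Fin l.length => l[i.1] := by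
  apply List.ext_getElem
  · simp
  · intro i h1 h2
    simp

theorem exists_formula (h : NumOK fn rn) (z : L.Term Empty) (k : ℕ) :
    ∃ φ : L.Formula ℕ, ∀ (M : Type) [L.Structure M] (v : ℕ → M),
      Sat (RM fn rn M) (z.realize Empty.elim) k v ↔ φ.Realize v := by
  classical
  induction k using code_induction with
  | hatom j l =>
    by_cases h1 : ∃ (f : Σ n, L.Functions n), j = fn f.1 f.2 ∧ l.length = f.1 + 1
    · obtain ⟨⟨n, f⟩, hj, hl⟩ := h1
      cases l with
      | nil => simp at hl
      | cons a l =>
        have hl' : l.length = n := by simpa using hl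
        subst hl'
        refine ⟨(Term.var a).equal (Term.func f (fun i => Term.var l[i.1])), ?_⟩
        intro M _ v
        rw [sat_atom, hj, List.map_cons]
        have e : l.map v = List.ofFn fun i : Fin l.length => v l[i.1] := by
          apply List.ext_getElem
          · simp
          · intro i h1 h2
            simp
        rw [e, funOK_RM h M]
        rw [Formula.realize_equal]
        rfl
    · by_cases h2 : ∃ (r : Σ n, L.Relations n), j = rn r.1 r.2 ∧ l.length = r.1
      · obtain ⟨⟨n, r⟩, hj, hl⟩ := h2
        simp only at hj hl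
        subst hl
        refine ⟨r.formula (fun i => Term.var l[i.1]), ?_⟩
        intro M _ v
        rw [sat_atom, hj]
        have e : l.map v = List.ofFn fun i : Fin l.length => v l[i.1] := by
          apply List.ext_getElem
          · simp
          · intro i h1 h2
            simp
        rw [e, Formula.realize_rel]
        constructor
        · rintro (⟨m, f, g', hj', -⟩ | ⟨m, r', g', hj', hl', hr⟩)
          · exact absurd hj'.symm (h.disj _ _ _ _)
          · obtain ⟨rfl, hf⟩ := h.rn_inj _ _ _ _ hj'
            obtain rfl := eq_of_heq hf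
            have := List.ofFn_injective hl'
            rw [← this] at hr
            exact hr
        · intro hr
          exact Or.inr ⟨_, r, _, rfl, rfl, hr⟩
      · refine ⟨⊥, ?_⟩
        intro M _ v
        rw [sat_atom]
        constructor
        · rintro (⟨m, f, g', hj', hl'⟩ | ⟨m, r', g', hj', hl', hr⟩)
          · exact (h1 ⟨⟨m, f⟩, hj', by simpa using congrArg List.length hl'⟩).elim
          · exact (h2 ⟨⟨m, r'⟩, hj', by simpa using congrArg List.length hl'⟩).elim
        · exact fun h => h.elim
  | himp a b iha ihb =>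
    obtain ⟨φ, hφ⟩ := iha
    obtain ⟨ψ, hψ⟩ := ihb
    refine ⟨φ.imp ψ, ?_⟩
    intro M _ v
    rw [sat_imp, hφ, hψ]
    rfl
  | hall i a ih =>
    obtain ⟨φ, hφ⟩ := ih
    refine ⟨(Formula.relabel (fun m => if m = i then (Sum.inr () : ℕ ⊕ Unit) else Sum.inl m)
      φ).iAlls Unit, ?_⟩
    intro M _ v
    rw [sat_all, Formula.realize_iAlls]
    constructor
    · intro hm x
      rw [Formula.realize_relabel, ← hφ]
      convert hm (x ()) using 1
      funext m
      by_cases hmi : m = i
      · subst hmi
        simp
      · simp [hmi]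
    · intro hm x
      have := hm (fun _ => x)
      rw [Formula.realize_relabel, ← hφ] at this
      convert this using 1
      funext m
      by_cases hmi : m = i
      · subst hmi
        simp
      · simp [hmi]
  | heq i j =>
    refine ⟨(Term.var i).equal (Term.var j), ?_⟩
    intro M _ v
    rw [sat_eq, Formula.realize_equal]
    rfl
  | hsub l a ih =>
    obtain ⟨φ, hφ⟩ := ih
    refine ⟨φ.subst (fun i => if h : i < l.length then Term.var l[i] else
      z.relabel Empty.elim), ?_⟩
    intro M _ v
    rw [sat_sub, hφ, Formula.Realize, Formula.Realize, BoundedFormula.realize_subst]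
    have e : (fun i => (l.map v).getD i (z.realize Empty.elim)) = fun i =>
        (if h : i < l.length then (Term.var l[i] : L.Term ℕ) else
          z.relabel Empty.elim).realize v := by
      funext i
      split_ifs with hi
      · rw [List.getD_eq_getElem _ _ (by simpa using hi), List.getElem_map]
        rfl
      · rw [Term.realize_relabel, List.getD_eq_default _ _ (by simpa using hi)]
        congr 1
        funext e
        exact e.elim
    rw [e]
  | hfls x =>
    refine ⟨⊥, ?_⟩
    intro M _ v
    simp only [sat_fls, false_iff]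
    exact id

end Back

/-! ### The axioms saying that the function symbols denote functions -/

section FunAx

variable {L : FirstOrder.Language.{0, 0}} (fn : ∀ n : ℕ, L.Functions n → ℕ)

/-- `R (fn f)` is the graph of a function -/
def fax (n : ℕ) (f : L.Functions n) : ℕ :=
  cnot (exN 0 n (cnot (cex n (cand (catom (fn n f) (n :: List.range' 0 n))
    (call (n + 1) (cimp (catom (fn n f) ((n + 1) :: List.range' 0 n)) (ceq (n + 1) n)))))))

theorem sat_fax {M : Type} {R : ℕ → List M → Prop} {m0 : M} {v : ℕ → M} (n : ℕ)
    (f : L.Functions n) : Sat R m0 (fax fn n f) v ↔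
      ∀ g : Fin n → M, ∃ y, R (fn n f) (y :: List.ofFn g) ∧
        ∀ y', R (fn n f) (y' :: List.ofFn g) → y' = y := by
  unfold fax
  rw [sat_not, sat_exN]
  have key : ∀ w : ℕ → M, (¬ Sat R m0 (cnot (cex n (cand (catom (fn n f) (n :: List.range' 0 n))
      (call (n + 1) (cimp (catom (fn n f) ((n + 1) :: List.range' 0 n))
        (ceq (n + 1) n)))))) w) ↔
      ∃ y, R (fn n f) (y :: List.ofFn fun i : Fin n => w i) ∧
        ∀ y', R (fn n f) (y' :: List.ofFn fun i : Fin n => w i) → y' = y := by
    intro w
    rw [sat_not, not_not, sat_ex]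
    refine exists_congr fun y => ?_
    rw [sat_and, sat_atom, sat_all, List.map_cons, map_range'_eq]
    have e1 : (fun i : Fin n => Function.update w n y (0 + i)) = fun i : Fin n => w i := by
      funext i
      rw [Function.update_of_ne (by omega), zero_add]
    rw [e1, Function.update_self]
    refine and_congr Iff.rfl (forall_congr' fun y' => ?_)
    rw [sat_imp, sat_atom, sat_eq, List.map_cons, map_range'_eq]
    have e2 : (fun i : Fin n => Function.update (Function.update w n y) (n + 1) y' (0 + i)) =
        fun i : Fin n => w i := by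
      funext i
      rw [Function.update_of_ne (by omega), Function.update_of_ne (by omega), zero_add]
    rw [e2, Function.update_self, Function.update_of_ne (by omega), Function.update_self]
  constructor
  · intro h g
    by_contra hcon
    apply h
    refine ⟨fun j => if h : j < n then g ⟨j, h⟩ else v j, ?_, ?_⟩
    · intro j hj
      beta_reduce
      rw [dif_neg (by omega)]
    · by_contra hc
      rw [key] at hc
      apply hcon
      have e : (fun i : Fin n => (fun j => if h : j < n then g ⟨j, h⟩ else v j) (i : ℕ)) = g := by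
        funext i
        simp
      rw [e] at hc
      exact hc
  · rintro h ⟨w, -, hw⟩
    exact (key w).2 (h _) hw

variable [Finite (Σ n, L.Functions n)]

/-- all function symbols denote functions -/
noncomputable def F0 : ℕ :=
  let _ := Fintype.ofFinite (Σ n, L.Functions n)
  cands ((Finset.univ : Finset (Σ n, L.Functions n)).toList.map fun f => fax fn f.1 f.2)

theorem sat_F0 {M : Type} {R : ℕ → List M → Prop} {m0 : M} {v : ℕ → M} :
    Sat R m0 (F0 fn) v ↔ ∀ n (f : L.Functions n) (g : Fin n → M),
      ∃ y, R (fn n f) (y :: List.ofFn g) ∧ ∀ y', R (fn n f) (y' :: List.ofFn g) → y' = y := by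
  unfold F0
  rw [sat_ands]
  simp only [List.mem_map, Finset.mem_toList, Finset.mem_univ, true_and]
  constructor
  · intro h n f
    exact (sat_fax fn n f).1 (h _ ⟨⟨n, f⟩, rfl⟩)
  · rintro h a ⟨⟨n, f⟩, rfl⟩
    exact (sat_fax fn n f).2 (h n f)

end FunAx

end Pool.Agent.Helper83_TruthDef
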