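import Pool.Agent.Helper83_TruthDef.RE

set_option autoImplicit false

/-!
# Numerical codes of formulas and Henkin valuations

Natural numbers code first order formulas in a language with atoms `R j (x_{i_1}, ..., x_{i_k})`
(no arities), equality, implication, quantification over named variables and explicit
substitution.  We show that the set of valid codes is `Sig`.
-/

namespace Pool.Agent.Helper83_TruthDef

open Encodable

def catom (j : ℕ) (L : List ℕ) : ℕ := 6 * Nat.pair j (encode L)
def cimp (a b : ℕ) : ℕ := 6 * Nat.pair a b + 1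
def call (i a : ℕ) : ℕ := 6 * Nat.pair i a + 2
def ceq (i j : ℕ) : ℕ := 6 * Nat.pair i j + 3
def csub (L : List ℕ) (a : ℕ) : ℕ := 6 * Nat.pair (encode L) a + 4
def cfls (x : ℕ) : ℕ := 6 * x + 5

section Sat

variable {M : Type} (R : ℕ → List M → Prop) (m0 : M)

/-- satisfaction of a code in the relational structure `R` -/
def Sat (k : ℕ) (v : ℕ → M) : Prop :=
  if k % 6 = 0 then R (k / 6).unpair.1 ((Denumerable.ofNat (List ℕ) (k / 6).unpair.2).map v)
  else if h1 : k % 6 = 1 then
    (Sat (k / 6).unpair.1 v → Sat (k / 6).unpair.2 v)
  else if h2 : k % 6 = 2 then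
    ∀ m, Sat (k / 6).unpair.2 (Function.update v (k / 6).unpair.1 m)
  else if k % 6 = 3 then v (k / 6).unpair.1 = v (k / 6).unpair.2
  else if h4 : k % 6 = 4 then
    Sat (k / 6).unpair.2
      (fun i => ((Denumerable.ofNat (List ℕ) (k / 6).unpair.1).map v).getD i m0)
  else False
termination_by k
decreasing_by
  all_goals
    have h1 := Nat.unpair_left_le (k / 6)
    have h2 := Nat.unpair_right_le (k / 6)
    omega

variable {R m0} {v : ℕ → M}

theorem sat_atom (j : ℕ) (L : List ℕ) : Sat R m0 (catom j L) v ↔ R j (L.map v) := by
  rw [Sat]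
  have h1 : catom j L % 6 = 0 := by unfold catom; omega
  have h2 : catom j L / 6 = Nat.pair j (encode L) := by unfold catom; omega
  rw [if_pos h1, h2]
  simp

theorem sat_imp (a b : ℕ) : Sat R m0 (cimp a b) v ↔ (Sat R m0 a v → Sat R m0 b v) := by
  rw [Sat]
  have h1 : cimp a b % 6 = 1 := by unfold cimp; omega
  have h2 : cimp a b / 6 = Nat.pair a b := by unfold cimp; omega
  rw [if_neg (by omega), dif_pos h1, h2]
  simp

theorem sat_all (i a : ℕ) :
    Sat R m0 (call i a) v ↔ ∀ m, Sat R m0 a (Function.update v i m) := by
  rw [Sat]
  have h1 : call i a % 6 = 2 := by unfold call; omega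
  have h2 : call i a / 6 = Nat.pair i a := by unfold call; omega
  rw [if_neg (by omega), dif_neg (by omega), dif_pos h1, h2]
  simp

theorem sat_eq (i j : ℕ) : Sat R m0 (ceq i j) v ↔ v i = v j := by
  rw [Sat]
  have h1 : ceq i j % 6 = 3 := by unfold ceq; omega
  have h2 : ceq i j / 6 = Nat.pair i j := by unfold ceq; omega
  rw [if_neg (by omega), dif_neg (by omega), dif_neg (by omega), if_pos h1, h2]
  simp

theorem sat_sub (L : List ℕ) (a : ℕ) :
    Sat R m0 (csub L a) v ↔ Sat R m0 a (fun i => (L.map v).getD i m0) := by
  rw [Sat]
  have h1 : csub L a % 6 = 4 := by unfold csub; omega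
  have h2 : csub L a / 6 = Nat.pair (encode L) a := by unfold csub; omega
  rw [if_neg (by omega), dif_neg (by omega), dif_neg (by omega), if_neg (by omega), dif_pos h1, h2]
  simp

theorem sat_fls (x : ℕ) : ¬ Sat R m0 (cfls x) v := by
  rw [Sat]
  have h1 : cfls x % 6 = 5 := by unfold cfls; omega
  rw [if_neg (by omega), dif_neg (by omega), dif_neg (by omega), if_neg (by omega),
    dif_neg (by omega)]
  exact id

end Sat

/-- case analysis and induction on codes -/
theorem code_induction {P : ℕ → Prop} (hatom : ∀ j L, P (catom j L))
    (himp : ∀ a b, P a → P b → P (cimp a b)) (hall : ∀ i a, P a → P (call i a))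
    (heq : ∀ i j, P (ceq i j)) (hsub : ∀ L a, P a → P (csub L a)) (hfls : ∀ x, P (cfls x)) :
    ∀ k, P k := by
  intro k
  induction k using Nat.strong_induction_on with
  | _ k ih =>
    have hp := Nat.pair_unpair (k / 6)
    have hl := Nat.unpair_left_le (k / 6)
    have hr := Nat.unpair_right_le (k / 6)
    have h6 : k % 6 = 0 ∨ k % 6 = 1 ∨ k % 6 = 2 ∨ k % 6 = 3 ∨ k % 6 = 4 ∨ k % 6 = 5 := by omega
    rcases h6 with h | h | h | h | h | h
    · have : k = catom (k / 6).unpair.1 (Denumerable.ofNat (List ℕ) (k / 6).unpair.2) := by
        unfold catom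
        rw [Denumerable.encode_ofNat, hp]
        omega
      rw [this]
      exact hatom _ _
    · have : k = cimp (k / 6).unpair.1 (k / 6).unpair.2 := by
        unfold cimp
        rw [hp]
        omega
      rw [this]
      exact himp _ _ (ih _ (by omega)) (ih _ (by omega))
    · have : k = call (k / 6).unpair.1 (k / 6).unpair.2 := by
        unfold call
        rw [hp]
        omega
      rw [this]
      exact hall _ _ (ih _ (by omega))
    · have : k = ceq (k / 6).unpair.1 (k / 6).unpair.2 := by
        unfold ceq
        rw [hp]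
        omega
      rw [this]
      exact heq _ _
    · have : k = csub (Denumerable.ofNat (List ℕ) (k / 6).unpair.1) (k / 6).unpair.2 := by
        unfold csub
        rw [Denumerable.encode_ofNat, hp]
        omega
      rw [this]
      exact hsub _ _ (ih _ (by omega))
    · have : k = cfls (k / 6) := by
        unfold cfls
        omega
      rw [this]
      exact hfls _

/-- atoms of the propositional language -/
def At (k : ℕ) (s : List ℕ) : ℕ := Nat.pair k (encode s)

/-- update of an assignment -/
def upd (s : List ℕ) (i c : ℕ) : List ℕ :=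
  (List.range (max s.length (i + 1))).map (fun j => if j = i then c else s.getD j 0)

/-- the witness -/
def wit (i a : ℕ) (s : List ℕ) : ℕ := Nat.pair (Nat.pair i a) (encode s) + 1

/-- values of a list of variables -/
def vals (L s : List ℕ) : List ℕ := L.map (fun i => s.getD i 0)

theorem upd_getD (s : List ℕ) (i c j : ℕ) :
    (upd s i c).getD j 0 = if j = i then c else s.getD j 0 := by
  unfold upd
  by_cases hj : j < max s.length (i + 1)
  · rw [List.getD_eq_getElem?_getD, List.getElem?_map, List.getElem?_range hj]
    rfl
  · rw [List.getD_eq_getElem?_getD, List.getElem?_map, List.getElem?_eq_none (by simpa using hj)]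
    rw [if_neg (by omega), List.getD_eq_getElem?_getD, List.getElem?_eq_none (by omega)]
    rfl

theorem upd_pair (a b d : ℕ) : upd [a, b] 0 d = [d, b] := rfl

theorem getD_le_encode (s : List ℕ) (j : ℕ) : s.getD j 0 ≤ encode s := by
  induction s generalizing j with
  | nil => simp
  | cons a l ih =>
    have h1 := Nat.left_le_pair a (encode l)
    have h2 := Nat.right_le_pair a (encode l)
    have h3 : encode (a :: l) = (Nat.pair a (encode l)).succ := by
      rw [encode_list_cons]
      rfl
    rw [h3]
    cases j with
    | zero => simpa using h1.trans (Nat.le_succ _)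
    | succ j =>
      have := ih j
      simp only [List.getD_cons_succ]
      omega

/-- Henkin valuations -/
structure HVal (v : ℕ → Bool) : Prop where
  imp1 : ∀ a b s, v (At (cimp a b) s) = true → v (At a s) = true → v (At b s) = true
  imp2 : ∀ a b s, v (At (cimp a b) s) = true ∨ v (At a s) = true
  imp3 : ∀ a b s, v (At (cimp a b) s) = true ∨ v (At b s) = false
  all : ∀ a c d s, v (At (call c a) s) = true → v (At a (upd s c d)) = true
  witn : ∀ a c s, v (At (call c a) s) = true ∨ v (At a (upd s c (wit c a s))) = false
  eq1 : ∀ c d s, v (At (ceq c d) s) = true → v (At (ceq 0 1) [s.getD c 0, s.getD d 0]) = true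
  eq2 : ∀ c d s, v (At (ceq c d) s) = true ∨ v (At (ceq 0 1) [s.getD c 0, s.getD d 0]) = false
  refl : ∀ c, v (At (ceq 0 1) [c, c]) = true
  congr : ∀ a b c d s, v (At (ceq 0 1) [c, d]) = true → v (At a (upd s b c)) = true →
    v (At a (upd s b d)) = true
  sub1 : ∀ a s L, v (At (csub L a) s) = true → v (At a (vals L s)) = true
  sub2 : ∀ a s L, v (At (csub L a) s) = true ∨ v (At a (vals L s)) = false
  atom1 : ∀ c s L, v (At (catom c L) s) = true →
    v (At (catom c (List.range L.length)) (vals L s)) = true
  atom2 : ∀ c s L, v (At (catom c L) s) = true ∨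
    v (At (catom c (List.range L.length)) (vals L s)) = false
  fls : ∀ x s, v (At (cfls x) s) = false

section Model

variable {v : ℕ → Bool} (hv : HVal v)

include hv

theorem HVal.symm {c d : ℕ} (h : v (At (ceq 0 1) [c, d]) = true) :
    v (At (ceq 0 1) [d, c]) = true := by
  have := hv.congr (ceq 0 1) 0 c d [c, c] h
  rw [upd_pair, upd_pair] at this
  exact this (hv.refl c)

theorem HVal.trans {c d e : ℕ} (h : v (At (ceq 0 1) [c, d]) = true)
    (h' : v (At (ceq 0 1) [d, e]) = true) : v (At (ceq 0 1) [c, e]) = true := by
  have := hv.congr (ceq 0 1) 0 d c [d, e] (hv.symm h)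
  rw [upd_pair, upd_pair] at this
  exact this h'

omit hv in
/-- canonical representatives -/
def Can (v : ℕ → Bool) (c : ℕ) : Prop := ∀ d < c, v (At (ceq 0 1) [d, c]) = false

theorem HVal.exists_can (c : ℕ) : ∃ d, Can v d ∧ v (At (ceq 0 1) [d, c]) = true := by
  classical
  have hex : ∃ d, v (At (ceq 0 1) [d, c]) = true := ⟨c, hv.refl c⟩
  refine ⟨Nat.find hex, ?_, Nat.find_spec hex⟩
  intro d hd
  by_contra h
  have h1 : v (At (ceq 0 1) [d, Nat.find hex]) = true := by simpa using h
  exact Nat.find_min hex hd (hv.trans h1 (Nat.find_spec hex))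

omit hv in
theorem can_zero : Can v 0 := fun d hd => by omega

omit hv in
/-- the relations of the Henkin model -/
def HR (v : ℕ → Bool) (j : ℕ) (l : List {c : ℕ // Can v c}) : Prop :=
  v (At (catom j (List.range l.length)) (l.map Subtype.val)) = true

theorem HVal.truth (k : ℕ) : ∀ (s : List ℕ) (hs : ∀ i, Can v (s.getD i 0)),
    (v (At k s) = true ↔
      Sat (HR v) ⟨0, can_zero⟩ k (fun i => (⟨s.getD i 0, hs i⟩ : {c : ℕ // Can v c}))) := by
  induction k using code_induction with
  | hatom j L =>
    intro s hs
    rw [sat_atom]
    unfold HR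
    rw [List.length_map, List.map_map]
    have : (Subtype.val ∘ fun i => (⟨s.getD i 0, hs i⟩ : {c : ℕ // Can v c})) =
        fun i => s.getD i 0 := rfl
    rw [this]
    constructor
    · intro h
      exact hv.atom1 j s L h
    · intro h
      rcases hv.atom2 j s L with h1 | h1
      · exact h1
      · have h2 : v (At (catom j (List.range L.length)) (vals L s)) = true := h
        rw [h1] at h2
        simp at h2
  | himp a b iha ihb =>
    intro s hs
    rw [sat_imp, ← iha s hs, ← ihb s hs]
    constructor
    · exact hv.imp1 a b s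
    · intro h
      rcases hv.imp2 a b s with h1 | h1
      · exact h1
      · rcases hv.imp3 a b s with h2 | h2
        · exact h2
        · rw [h h1] at h2
          simp at h2
  | hall i a ih =>
    intro s hs
    rw [sat_all]
    have key : ∀ (m : {c : ℕ // Can v c}), (v (At a (upd s i m.1)) = true ↔
        Sat (HR v) ⟨0, can_zero⟩ a
          (Function.update (fun i => (⟨s.getD i 0, hs i⟩ : {c : ℕ // Can v c})) i m)) := by
      intro m
      have hs' : ∀ j, Can v ((upd s i m.1).getD j 0) := by
        intro j
        rw [upd_getD]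
        split_ifs
        · exact m.2
        · exact hs j
      rw [ih (upd s i m.1) hs']
      have : (fun j => (⟨(upd s i m.1).getD j 0, hs' j⟩ : {c : ℕ // Can v c})) =
          Function.update (fun i => (⟨s.getD i 0, hs i⟩ : {c : ℕ // Can v c})) i m := by
        funext j
        apply Subtype.ext
        simp only [upd_getD]
        by_cases hj : j = i
        · subst hj
          simp
        · simp [hj]
      rw [this]
    constructor
    · intro h m
      exact (key m).1 (hv.all a i m.1 s h)
    · intro h
      rcases hv.witn a i s with h1 | h1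
      · exact h1
      · exfalso
        obtain ⟨d, hd, hd'⟩ := hv.exists_can (wit i a s)
        have h2 := (key ⟨d, hd⟩).2 (h ⟨d, hd⟩)
        have h3 := hv.congr a i d (wit i a s) s hd' h2
        rw [h1] at h3
        simp at h3
  | heq i j =>
    intro s hs
    rw [sat_eq, Subtype.mk.injEq]
    constructor
    · intro h
      have h1 := hv.eq1 i j s h
      rcases lt_trichotomy (s.getD i 0) (s.getD j 0) with h2 | h2 | h2
      · have := hs j _ h2
        rw [h1] at this
        simp at this
      · exact h2
      · have := hs i _ h2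
        rw [hv.symm h1] at this
        simp at this
    · intro h
      rcases hv.eq2 i j s with h1 | h1
      · exact h1
      · rw [h, hv.refl] at h1
        simp at h1
  | hsub L a ih =>
    intro s hs
    rw [sat_sub]
    have e : ∀ i, (vals L s).getD i 0 = ((L.map (fun i =>
        (⟨s.getD i 0, hs i⟩ : {c : ℕ // Can v c}))).getD i ⟨0, can_zero⟩).1 := by
      intro i
      unfold vals
      simp only [List.getD_eq_getElem?_getD, List.getElem?_map]
      cases L[i]? <;> rfl
    have hs' : ∀ i, Can v ((vals L s).getD i 0) := by
      intro i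
      rw [e]
      exact Subtype.prop _
    have e2 : (fun i => (L.map (fun i =>
        (⟨s.getD i 0, hs i⟩ : {c : ℕ // Can v c}))).getD i ⟨0, can_zero⟩) =
        fun i => (⟨(vals L s).getD i 0, hs' i⟩ : {c : ℕ // Can v c}) := by
      funext i
      exact Subtype.ext (e i).symm
    rw [e2, ← ih _ hs']
    constructor
    · exact hv.sub1 a s L
    · intro h
      rcases hv.sub2 a s L with h1 | h1
      · exact h1
      · rw [h] at h1
        simp at h1
  | hfls x =>
    intro s hs
    rw [hv.fls]
    simp [sat_fls]

end Model

/-- recursion along the natural numbers -/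
theorem exists_rec {M : Type} (m0 : M) (G : (ℕ → M) → ℕ → M)
    (hG : ∀ f g n, (∀ c < n, f c = g c) → G f n = G g n) : ∃ I : ℕ → M, ∀ n, I n = G I n := by
  classical
  let F : ∀ n : ℕ, (∀ m < n, M) → M := fun n f => G (fun c => if h : c < n then f c h else m0) n
  refine ⟨fun n => @Nat.strongRec (fun _ => M) F n, fun n => ?_⟩
  change @Nat.strongRec (fun _ => M) F n = _
  rw [Nat.strongRec_eq]
  refine hG _ _ _ ?_
  intro c hc
  rw [dif_pos hc]

section Valuation

variable {M : Type} (R : ℕ → List M → Prop) (m0 : M)

open Classical in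
/-- the choice of a witness -/
noncomputable def wch (i a : ℕ) (g : ℕ → M) : M :=
  if h : ∃ m, ¬ Sat R m0 a (Function.update g i m) then h.choose else m0

theorem wch_spec (i a : ℕ) (g : ℕ → M) (h : ∃ m, ¬ Sat R m0 a (Function.update g i m)) :
    ¬ Sat R m0 a (Function.update g i (wch R m0 i a g)) := by
  unfold wch
  rw [dif_pos h]
  exact h.choose_spec

/-- one step of the recursion giving the interpretation of the Henkin constants -/
noncomputable def step (f : ℕ → M) : ℕ → M
  | 0 => m0
  | x + 1 => wch R m0 x.unpair.1.unpair.1 x.unpair.1.unpair.2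
      (fun j => f ((Denumerable.ofNat (List ℕ) x.unpair.2).getD j 0))

theorem exists_interp : ∃ I : ℕ → M, I 0 = m0 ∧ ∀ i a s,
    (∃ m, ¬ Sat R m0 a (Function.update (fun j => I (s.getD j 0)) i m)) →
    ¬ Sat R m0 a (Function.update (fun j => I (s.getD j 0)) i (I (wit i a s))) := by
  obtain ⟨I, hI⟩ := exists_rec m0 (step R m0) (by
    intro f g n hfg
    cases n with
    | zero => rfl
    | succ x =>
      have : (fun j => f ((Denumerable.ofNat (List ℕ) x.unpair.2).getD j 0)) =
          fun j => g ((Denumerable.ofNat (List ℕ) x.unpair.2).getD j 0) := by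
        funext j
        refine hfg _ ?_
        have h1 := getD_le_encode (Denumerable.ofNat (List ℕ) x.unpair.2) j
        rw [Denumerable.encode_ofNat] at h1
        have h2 := Nat.unpair_right_le x
        omega
      simp only [step, this])
  refine ⟨I, by rw [hI]; rfl, ?_⟩
  intro i a s h
  have e : I (wit i a s) = wch R m0 i a (fun j => I (s.getD j 0)) := by
    rw [hI, wit]
    unfold step
    simp only [Nat.unpair_pair, Denumerable.ofNat_encode]
  rw [e]
  exact wch_spec R m0 i a _ h

theorem exists_hval (k : ℕ) (h : ¬ Sat R m0 k (fun _ => m0)) :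
    ∃ v, HVal v ∧ v (At k []) = false := by
  classical
  obtain ⟨I, hI0, hI⟩ := exists_interp R m0
  let v : ℕ → Bool := fun x => decide (Sat R m0 x.unpair.1
    (fun j => I ((Denumerable.ofNat (List ℕ) x.unpair.2).getD j 0)))
  have hvt : ∀ k s, v (At k s) = true ↔ Sat R m0 k (fun j => I (s.getD j 0)) := by
    intro k s
    simp [v, At]
  have hvf : ∀ k s, v (At k s) = false ↔ ¬ Sat R m0 k (fun j => I (s.getD j 0)) := by
    intro k s
    rw [← hvt]
    simp
  have hupd : ∀ (s : List ℕ) (c d : ℕ), (fun j => I ((upd s c d).getD j 0)) =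
      Function.update (fun j => I (s.getD j 0)) c (I d) := by
    intro s c d
    funext j
    simp only [upd_getD]
    by_cases hj : j = c
    · subst hj
      simp
    · simp [hj]
  have hvals : ∀ (L s : List ℕ), (fun j => I ((vals L s).getD j 0)) =
      fun j => (L.map (fun j => I (s.getD j 0))).getD j m0 := by
    intro L s
    funext j
    unfold vals
    simp only [List.getD_eq_getElem?_getD, List.getElem?_map]
    cases L[j]? with
    | none => simpa using hI0
    | some x => rfl
  have hat : ∀ (c : ℕ) (L s : List ℕ), (List.range L.length).map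
      (fun j => I ((vals L s).getD j 0)) = L.map (fun j => I (s.getD j 0)) := by
    intro c L s
    rw [hvals]
    apply List.ext_getElem
    · simp
    · intro i h1 h2
      simp only [List.getElem_map, List.getElem_range]
      rw [List.getD_eq_getElem _ _ (by simpa using h2), List.getElem_map]
  refine ⟨v, ?_, ?_⟩
  · constructor
    · intro a b s
      rw [hvt, hvt, hvt, sat_imp]
      exact fun h => h
    · intro a b s
      rw [hvt, hvt, sat_imp]
      tauto
    · intro a b s
      rw [hvt, hvf, sat_imp]
      tauto
    · intro a c d s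
      rw [hvt, hvt, sat_all, hupd]
      exact fun h => h _
    · intro a c s
      rw [hvt, hvf, sat_all, hupd]
      by_cases hm : ∃ m, ¬ Sat R m0 a (Function.update (fun j => I (s.getD j 0)) c m)
      · exact Or.inr (hI c a s hm)
      · left
        push Not at hm
        exact hm
    · intro c d s
      rw [hvt, hvt, sat_eq, sat_eq]
      exact fun h => h
    · intro c d s
      rw [hvt, hvf, sat_eq, sat_eq]
      exact em _
    · intro c
      rw [hvt, sat_eq]
      rfl
    · intro a b c d s
      rw [hvt, hvt, hvt, sat_eq, hupd, hupd]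
      intro h1 h2
      have h3 : I c = I d := h1
      rwa [h3] at h2
    · intro a s L
      rw [hvt, hvt, sat_sub, hvals]
      exact id
    · intro a s L
      rw [hvt, hvf, sat_sub, hvals]
      exact em _
    · intro c s L
      rw [hvt, hvt, sat_atom, sat_atom, hat c]
      exact id
    · intro c s L
      rw [hvt, hvf, sat_atom, sat_atom, hat c]
      exact em _
    · intro x s
      rw [hvf]
      exact sat_fls x
  · rw [hvf]
    have : (fun j => I (([] : List ℕ).getD j 0)) = fun _ => m0 := by
      funext j
      simpa using hI0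
    rw [this]
    exact h

end Valuation

/-- validity of a code -/
def Valid (k : ℕ) : Prop :=
  ∀ (M : Type) (R : ℕ → List M → Prop) (m0 : M), Sat R m0 k (fun _ => m0)

theorem valid_iff (k : ℕ) : Valid k ↔ ¬ ∃ v, HVal v ∧ v (At k []) = false := by
  constructor
  · rintro h ⟨v, hv, hk⟩
    have hs : ∀ i, Can v (([] : List ℕ).getD i 0) := by
      intro i
      simpa using can_zero
    have h1 := (hv.truth k [] hs).2 (h _ (HR v) ⟨0, can_zero⟩)
    rw [hk] at h1
    simp at h1
  · intro h M R m0
    by_contra hcon
    exact h (exists_hval R m0 k hcon)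

end Pool.Agent.Helper83_TruthDef
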