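import Mathlib

set_option autoImplicit false

/-!
# Definitions of truth and the definability order
-/

namespace Pool.Agent.Helper83_TruthDef

open FirstOrder FirstOrder.Language

/-- Relation symbols indexed by `ι`, the symbol `i` having arity `ar i`. -/
inductive RelSym {ι : Type} (ar : ι → ℕ) : ℕ → Type
  | mk (i : ι) : RelSym ar (ar i)

/-- The language whose only symbols are relation symbols indexed by `ι`, with arities `ar`. -/
abbrev relLang {ι : Type} (ar : ι → ℕ) : FirstOrder.Language.{0, 0} :=
  ⟨fun _ => Empty, fun n => RelSym ar n⟩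

/-- A finitely axiomatised theory, given by the conjunction `ax` of its axioms, in a language
obtained from `L` by adding finitely many relation symbols. -/
structure FinThy (L : FirstOrder.Language.{0, 0}) where
  /-- the index set of the new relation symbols -/
  ι : Type
  /-- there are finitely many new symbols -/
  fin : Finite ι
  /-- the arities of the new symbols -/
  ar : ι → ℕ
  /-- the axiom -/
  ax : (L.sum (relLang ar)).Sentence

variable {L : FirstOrder.Language.{0, 0}}

/-- The language of a theory. -/
abbrev FinThy.lang (α : FinThy L) : FirstOrder.Language.{0, 0} := L.sum (relLang α.ar)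

/-- `α ⊢ φ`. -/
def FinThy.Proves (α : FinThy L) (φ : α.lang.Sentence) : Prop :=
  ({α.ax} : α.lang.Theory) ⊨ᵇ φ

/-- Terms do not contain the new symbols, so they may be moved between two expansions. -/
noncomputable def trTerm {ι ι' : Type} {ar : ι → ℕ} {ar' : ι' → ℕ} {γ : Type}
    (t : (L.sum (relLang ar)).Term γ) : (L.sum (relLang ar')).Term γ :=
  Term.rec (motive := fun _ => (L.sum (relLang ar')).Term γ) (fun a => .var a)
    (fun f _ ts => Sum.elim (fun f => .func (.inl f) ts) (fun e => Empty.elim e) f) t

/-- The instance `φ(t₀, ..., t_{m-1})` of a formula `φ(x₀, ..., x_{m-1})`. -/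
def inst {L' : FirstOrder.Language.{0, 0}} {m n : ℕ} {γ : Type} (φ : L'.Formula (Fin m))
    (ts : Fin m → L'.Term (γ ⊕ Fin n)) : L'.BoundedFormula γ n :=
  BoundedFormula.relabel (n := n) (k := 0) id (φ.subst ts)

/-- The translation of an atomic formula: a relation symbol of `L` is kept, the new relation
symbol `i` is replaced by the formula `τ i`. -/
noncomputable def trRel {ι ι' : Type} {ar : ι → ℕ} {ar' : ι' → ℕ}
    (τ : ∀ i : ι, (L.sum (relLang ar')).Formula (Fin (ar i))) {γ : Type} {n l : ℕ}
    (r : (L.sum (relLang ar)).Relations l) (ts : Fin l → (L.sum (relLang ar')).Term (γ ⊕ Fin n)) :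
    (L.sum (relLang ar')).BoundedFormula γ n :=
  Sum.elim (fun r => .rel (.inl r) ts)
    (fun r => RelSym.rec (motive := fun l _ => (Fin l → (L.sum (relLang ar')).Term (γ ⊕ Fin n)) →
      (L.sum (relLang ar')).BoundedFormula γ n) (fun i ts => inst (τ i) ts) r ts) r

/-- The translation of formulas given by a family `τ` of formulas: the symbols of `L` and the
quantifiers are kept, the new relation symbol `i` is replaced by the formula `τ i`. -/
noncomputable def trForm {ι ι' : Type} {ar : ι → ℕ} {ar' : ι' → ℕ}
    (τ : ∀ i : ι, (L.sum (relLang ar')).Formula (Fin (ar i))) {γ : Type} {n : ℕ}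
    (φ : (L.sum (relLang ar)).BoundedFormula γ n) : (L.sum (relLang ar')).BoundedFormula γ n :=
  BoundedFormula.rec (motive := fun n _ => (L.sum (relLang ar')).BoundedFormula γ n)
    .falsum (fun s t => .equal (trTerm s) (trTerm t))
    (fun r ts => trRel τ r fun i => trTerm (ts i))
    (fun _ _ φ ψ => .imp φ ψ) (fun _ φ => .all φ) φ

/-- `Defines β α`: the theory `β` defines the theory `α`, written `α ⊲ β` in the problem. -/
def Defines (β α : FinThy L) : Prop :=
  ∃ τ : ∀ i : α.ι, β.lang.Formula (Fin (α.ar i)), β.Proves (trForm τ α.ax)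

/-- Arithmetical symbols in a language. -/
structure ArSym (L : FirstOrder.Language.{0, 0}) where
  zero : L.Functions 0
  succ : L.Functions 1
  add : L.Functions 2
  mul : L.Functions 2
  le : L.Relations 2

/-- The numeral `S ... S 0`. -/
def numeral (A : ArSym L) (n : ℕ) : L.Term Empty :=
  Nat.rec (.func A.zero ![]) (fun _ t => .func A.succ ![t]) n

/-- The sentence `φ` of `L`, seen as a sentence of the language of `α`. -/
def FinThy.up (α : FinThy L) (φ : L.Sentence) : α.lang.Sentence :=
  (LHom.sumInl : L →ᴸ α.lang).onSentence φ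

/-- `IsTruthDef A T gn α`: the finitely axiomatised theory `α` proves all axioms of `T` and has a
formula `Θ(x)` with `α ⊢ Θ(⌜σ⌝) ↔ σ` for all sentences `σ` of `L`, where `⌜σ⌝` is the numeral of
the number `gn σ`. -/
def IsTruthDef (A : ArSym L) (T : L.Theory) (gn : L.Sentence → ℕ) (α : FinThy L) : Prop :=
  (∀ σ ∈ T, α.Proves (α.up σ)) ∧
  ∃ Θ : α.lang.Formula (Fin 1), ∀ σ : L.Sentence, α.Proves
    (BoundedFormula.iff
      (Θ.subst fun _ => (LHom.sumInl : L →ᴸ α.lang).onTerm (numeral A (gn σ))) (α.up σ))

end Pool.Agent.Helper83_TruthDef
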