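import Mathlib

set_option autoImplicit false

/-!
# Recursively enumerable sets from propositional clauses

A set of naturals is `Sig` when it is the projection of a primitive recursive relation.  If
`cl k n` is a primitive recursive family of clauses, the set of `k` for which the clauses
`cl k 0, cl k 1, ...` are not simultaneously satisfiable is `Sig`.
-/

namespace Pool.Agent.Helper83_TruthDef

/-- the clause `c` holds under the valuation `v` -/
def SatC (v : ℕ → Bool) (c : List (ℕ × Bool)) : Prop := ∃ l ∈ c, v l.1 = l.2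

/-- a list of literals contains a complementary pair -/
def clash (s : List (ℕ × Bool)) : Prop := ∃ l ∈ s, (l.1, !l.2) ∈ s

theorem satC_of_section {L : List (List (ℕ × Bool))} {s : List (ℕ × Bool)}
    (hs : s ∈ L.sections) (hc : ¬ clash s) :
    ∀ c ∈ L, SatC (fun x => decide ((x, true) ∈ s)) c := by
  intro c hcL
  rw [List.mem_sections] at hs
  have key : ∀ (s' : List (ℕ × Bool)) (L' : List (List (ℕ × Bool))),
      List.Forall₂ (fun a l => a ∈ l) s' L' → c ∈ L' → ∃ a ∈ s', a ∈ c := by
    intro s' L' h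
    induction h with
    | nil => intro h; simp at h
    | cons h1 h2 ih =>
      intro h
      rcases List.mem_cons.1 h with rfl | h
      · exact ⟨_, List.mem_cons_self, h1⟩
      · obtain ⟨a, ha, hac⟩ := ih h
        exact ⟨a, List.mem_cons_of_mem _ ha, hac⟩
  obtain ⟨a, ha, hac⟩ := key s L hs hcL
  refine ⟨a, hac, ?_⟩
  obtain ⟨x, b⟩ := a
  cases b with
  | true => simpa using ha
  | false =>
    have : (x, true) ∉ s := fun h => hc ⟨(x, false), ha, by simpa using h⟩
    simpa using this

theorem exists_section {L : List (List (ℕ × Bool))} {v : ℕ → Bool}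
    (h : ∀ c ∈ L, SatC v c) : ∃ s ∈ L.sections, ∀ l ∈ s, v l.1 = l.2 := by
  induction L with
  | nil => exact ⟨[], by simp, by simp⟩
  | cons c L ih =>
    obtain ⟨s, hs, hv⟩ := ih fun c hc => h c (List.mem_cons_of_mem _ hc)
    obtain ⟨l, hl, hvl⟩ := h c List.mem_cons_self
    refine ⟨l :: s, ?_, ?_⟩
    · rw [List.mem_sections] at hs ⊢
      exact List.Forall₂.cons hl hs
    · intro l' hl'
      rcases List.mem_cons.1 hl' with rfl | h'
      · exact hvl
      · exact hv l' h'

theorem isClosed_satC (c : List (ℕ × Bool)) : IsClosed {v : ℕ → Bool | SatC v c} := by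
  have : {v : ℕ → Bool | SatC v c} = ⋃ l ∈ {l | l ∈ c}, {v : ℕ → Bool | v l.1 = l.2} := by
    ext v
    simp [SatC]
  rw [this]
  refine Set.Finite.isClosed_biUnion (List.finite_toSet c) ?_
  intro l _
  exact isClosed_eq (continuous_apply l.1) continuous_const

theorem unsat_iff (cl : ℕ → List (ℕ × Bool)) :
    (¬ ∃ v : ℕ → Bool, ∀ n, SatC v (cl n)) ↔
      ∃ N, ∀ s ∈ ((List.range N).map cl).sections, clash s := by
  constructor
  · intro h
    by_contra hcon
    push Not at hcon
    apply h
    have hne : ∀ N, (⋂ n ∈ {n | n < N}, {v : ℕ → Bool | SatC v (cl n)}).Nonempty := by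
      intro N
      obtain ⟨s, hs, hc⟩ := hcon N
      refine ⟨fun x => decide ((x, true) ∈ s), ?_⟩
      simp only [Set.mem_iInter, Set.mem_ofPred_eq]
      intro n hn
      exact satC_of_section hs hc (cl n) (List.mem_map.2 ⟨n, List.mem_range.2 hn, rfl⟩)
    have := IsCompact.nonempty_iInter_of_sequence_nonempty_isCompact_isClosed
      (fun N => ⋂ n ∈ {n | n < N}, {v : ℕ → Bool | SatC v (cl n)})
      (fun N => by
        intro v hv
        simp only [Set.mem_iInter, Set.mem_ofPred_eq] at hv ⊢
        intro n hn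
        exact hv n (by omega))
      hne (by
        refine IsClosed.isCompact ?_
        exact isClosed_biInter fun n _ => isClosed_satC _)
      (fun N => isClosed_biInter fun n _ => isClosed_satC _)
    obtain ⟨v, hv⟩ := this
    refine ⟨v, fun n => ?_⟩
    simp only [Set.mem_iInter, Set.mem_ofPred_eq] at hv
    exact hv (n + 1) n (by omega)
  · rintro ⟨N, hN⟩ ⟨v, hv⟩
    obtain ⟨s, hs, hvs⟩ := exists_section (L := (List.range N).map cl) (v := v) (by
      intro c hc
      obtain ⟨n, -, rfl⟩ := List.mem_map.1 hc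
      exact hv n)
    obtain ⟨l, hl, hl'⟩ := hN s hs
    have h1 := hvs l hl
    have h2 := hvs _ hl'
    simp only at h2
    rw [h1] at h2
    simp at h2

theorem sections_primrec : Primrec (List.sections : List (List (ℕ × Bool)) → _) := by
  have h : Primrec fun L : List (List (ℕ × Bool)) =>
      L.foldr (fun l r => r.flatMap fun s => l.map fun a => a :: s) [[]] := by
    refine Primrec.list_foldr (h := fun (_ : List (List (ℕ × Bool)))
      (p : List (ℕ × Bool) × List (List (ℕ × Bool))) =>
        p.2.flatMap fun s => p.1.map fun a => a :: s) Primrec.id (Primrec.const _) ?_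
    refine Primrec.list_flatMap (Primrec.snd.comp Primrec.snd) ?_
    refine Primrec.list_map (Primrec.fst.comp (Primrec.snd.comp Primrec.fst)) ?_
    exact Primrec.list_cons.comp Primrec.snd (Primrec.snd.comp Primrec.fst)
  refine h.of_eq fun L => ?_
  induction L with
  | nil => rfl
  | cons l L ih => rw [List.foldr_cons, ih, List.sections]

theorem clash_primrec : PrimrecPred clash := by
  have h1 : PrimrecRel fun (a l : ℕ × Bool) => a = (l.1, !l.2) := by
    refine PrimrecRel.comp Primrec.eq Primrec.fst ?_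
    exact Primrec.pair (Primrec.fst.comp Primrec.snd) (Primrec.not.comp (Primrec.snd.comp Primrec.snd))
  have h2 : PrimrecRel fun (s : List (ℕ × Bool)) (l : ℕ × Bool) => ∃ a ∈ s, a = (l.1, !l.2) :=
    h1.exists_mem_list
  have h3 : PrimrecRel fun (l : ℕ × Bool) (s : List (ℕ × Bool)) => ∃ a ∈ s, a = (l.1, !l.2) :=
    PrimrecRel.comp₂ h2 Primrec₂.right Primrec₂.left
  have h4 : PrimrecRel fun (L : List (ℕ × Bool)) (s : List (ℕ × Bool)) =>
      ∃ l ∈ L, ∃ a ∈ s, a = (l.1, !l.2) := h3.exists_mem_list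
  have h5 : PrimrecPred fun (s : List (ℕ × Bool)) => ∃ l ∈ s, ∃ a ∈ s, a = (l.1, !l.2) :=
    PrimrecRel.comp h4 Primrec.id Primrec.id
  refine h5.of_eq fun s => ?_
  constructor
  · rintro ⟨l, hl, a, ha, rfl⟩
    exact ⟨l, hl, ha⟩
  · rintro ⟨l, hl, ha⟩
    exact ⟨l, hl, _, ha, rfl⟩

/-- projections of primitive recursive relations -/
def Sig (p : ℕ → Prop) : Prop :=
  ∃ R : ℕ → ℕ → Prop, PrimrecRel R ∧ ∀ n, p n ↔ ∃ m, R n m

theorem Sig.unsat {cl : ℕ → ℕ → List (ℕ × Bool)} (h : Primrec₂ cl) :
    Sig fun k => ¬ ∃ v : ℕ → Bool, ∀ n, SatC v (cl k n) := by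
  refine ⟨fun k N => ∀ s ∈ ((List.range N).map (cl k)).sections, clash s, ?_, fun k => ?_⟩
  · have h1 : Primrec₂ fun (k N : ℕ) => ((List.range N).map (cl k)).sections := by
      refine sections_primrec.comp₂ ?_
      refine Primrec.list_map (Primrec.list_range.comp Primrec.snd) ?_
      exact h.comp (Primrec.fst.comp Primrec.fst) Primrec.snd
    exact PrimrecPred.comp clash_primrec.forall_mem_list h1
  · exact unsat_iff (cl k)

theorem Sig.comp {p : ℕ → Prop} (hp : Sig p) {f : ℕ → ℕ} (hf : Primrec f) :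
    Sig fun n => p (f n) := by
  obtain ⟨R, hR, h⟩ := hp
  refine ⟨fun n m => R (f n) m, ?_, fun n => h (f n)⟩
  exact PrimrecRel.comp hR (hf.comp Primrec.fst) Primrec.snd

/-- closure under projection -/
theorem Sig.proj {α : Type*} [Denumerable α] {p : ℕ → Prop} (hp : Sig p) {f : ℕ → ℕ → ℕ}
    (hf : Primrec₂ f) {q : ℕ → α → Prop} (hq : ∀ n a, q n a ↔ p (f n (Encodable.encode a))) :
    Sig fun n => ∃ a, q n a := by
  obtain ⟨R, hR, h⟩ := hp
  refine ⟨fun n m => R (f n m.unpair.1) m.unpair.2, ?_, fun n => ?_⟩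
  · refine PrimrecRel.comp hR (hf.comp Primrec.fst ?_) ?_
    · exact Primrec.fst.comp (Primrec.unpair.comp Primrec.snd)
    · exact Primrec.snd.comp (Primrec.unpair.comp Primrec.snd)
  · constructor
    · rintro ⟨a, ha⟩
      rw [hq, h] at ha
      obtain ⟨m, hm⟩ := ha
      exact ⟨Nat.pair (Encodable.encode a) m, by simpa using hm⟩
    · rintro ⟨m, hm⟩
      refine ⟨Denumerable.ofNat α m.unpair.1, ?_⟩
      rw [hq, h]
      exact ⟨m.unpair.2, by simpa using hm⟩

theorem Sig.rePred {p : ℕ → Prop} (hp : Sig p) : REPred p := by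
  classical
  obtain ⟨R, hR, h⟩ := hp
  have h1 : Primrec₂ fun n m => decide (R n m) := hR.decide
  have h2 : Partrec₂ (fun (n m : ℕ) => (Part.some (decide (R n m)) : Part Bool)) :=
    h1.to_comp.partrec₂
  have h3 := (Partrec.rfind h2).dom_re
  refine h3.of_eq fun n => ?_
  rw [h]
  refine Nat.rfind_dom.trans ?_
  constructor
  · rintro ⟨m, hm, -⟩
    exact ⟨m, by simpa using hm⟩
  · rintro ⟨m, hm⟩
    exact ⟨m, by simpa using hm, fun _ => trivial⟩

end Pool.Agent.Helper83_TruthDef
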