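import Pool.Agent.Helper83_TruthDef.Defs

set_option autoImplicit false

/-!
# Semantics of translations
-/

namespace Pool.Agent.Helper83_TruthDef

open FirstOrder FirstOrder.Language

variable {L : FirstOrder.Language.{0, 0}}

/-- `S ⊨ φ` -/
abbrev Mod {L' : FirstOrder.Language.{0, 0}} {M : Type} (S : L'.Structure M) (φ : L'.Sentence) :
    Prop := @Sentence.Realize L' M S φ

theorem proves_iff (α : FinThy L) (φ : α.lang.Sentence) :
    α.Proves φ ↔ ∀ (M : Type) (S : α.lang.Structure M), Nonempty M → Mod S α.ax → Mod S φ := by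
  unfold FinThy.Proves
  rw [Theory.models_sentence_iff]
  constructor
  · intro h M S hne hM
    have hmod : M ⊨ ({α.ax} : α.lang.Theory) := by
      rw [Theory.model_singleton_iff]
      exact hM
    exact h (Theory.ModelType.of ({α.ax} : α.lang.Theory) M)
  · intro h M
    refine h M inferInstance inferInstance ?_
    exact Theory.realize_sentence_of_mem ({α.ax} : α.lang.Theory) (Set.mem_singleton _)

/-- the `L`-part of a structure -/
abbrev red {ι : Type} {ar : ι → ℕ} {M : Type} (S : (L.sum (relLang ar)).Structure M) :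
    L.Structure M := @LHom.reduct _ _ (LHom.sumInl : L →ᴸ L.sum (relLang ar)) M S

theorem up_iff (α : FinThy L) {M : Type} (S : α.lang.Structure M) (φ : L.Sentence) :
    Mod S (α.up φ) ↔ Mod (red S) φ := by
  let _ := red S
  have := (LHom.sumInl : L →ᴸ L.sum (relLang α.ar)).isExpansionOn_reduct M
  exact LHom.realize_onSentence M (LHom.sumInl : L →ᴸ α.lang) φ

section Ind

variable {ι ι' ι'' : Type} {ar : ι → ℕ} {ar' : ι' → ℕ} {ar'' : ι'' → ℕ}

/-- the structure defined by a family of formulas -/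
@[instance_reducible]
def ind (τ : ∀ i : ι, (L.sum (relLang ar')).Formula (Fin (ar i))) {M : Type}
    (S : (L.sum (relLang ar')).Structure M) : (L.sum (relLang ar)).Structure M where
  funMap := fun {_} f g =>
    match f with
    | .inl f => @Structure.funMap _ _ S _
        (Sum.inl f : (L.sum (relLang ar')).Functions _) g
    | .inr e => Empty.elim e
  RelMap := fun {_} r g =>
    match r, g with
    | .inl r, g => @Structure.RelMap _ _ S _
        (Sum.inl r : (L.sum (relLang ar')).Relations _) g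
    | .inr (.mk i), g => @Formula.Realize _ _ S _ (τ i) g

theorem red_ind (τ : ∀ i : ι, (L.sum (relLang ar')).Formula (Fin (ar i))) {M : Type}
    (S : (L.sum (relLang ar')).Structure M) : red (ind τ S) = red S := rfl

theorem realize_inst {L' : FirstOrder.Language.{0, 0}} {M : Type} [L'.Structure M] {m n : ℕ}
    {γ : Type} (φ : L'.Formula (Fin m)) (ts : Fin m → L'.Term (γ ⊕ Fin n)) (v : γ → M)
    (xs : Fin n → M) :
    (inst φ ts).Realize v xs ↔ φ.Realize fun j => (ts j).realize (Sum.elim v xs) := by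
  unfold inst
  rw [show BoundedFormula.Realize (BoundedFormula.relabel (n := n) (k := 0) id (φ.subst ts)) v xs ↔
    (φ.subst ts).Realize (Sum.elim v (xs ∘ Fin.castAdd 0) ∘ id) (xs ∘ Fin.natAdd n) from
    BoundedFormula.realize_relabel, BoundedFormula.realize_subst]
  have : (xs ∘ Fin.castAdd 0 : Fin n → M) = xs := by
    funext i
    rfl
  rw [this]
  rw [Formula.Realize]
  have h2 : (xs ∘ Fin.natAdd n : Fin 0 → M) = default := Subsingleton.elim _ _
  rw [h2]
  rfl

theorem trTerm_realize (τ : ∀ i : ι, (L.sum (relLang ar')).Formula (Fin (ar i))) {M : Type}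
    (S : (L.sum (relLang ar')).Structure M) {γ : Type} (v : γ → M)
    (t : (L.sum (relLang ar)).Term γ) :
    @Term.realize _ _ S _ v (trTerm t) = @Term.realize _ _ (ind τ S) _ v t := by
  induction t with
  | var a => rfl
  | func f ts ih =>
    cases f with
    | inl f =>
      have : (fun i => @Term.realize _ _ S _ v (trTerm (ts i))) =
          fun i => @Term.realize _ _ (ind τ S) _ v (ts i) := funext ih
      change @Structure.funMap _ _ S _ (Sum.inl f : (L.sum (relLang ar')).Functions _)
        (fun i => @Term.realize _ _ S _ v (trTerm (ts i))) = _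
      rw [this]
      rfl
    | inr e => exact Empty.elim e

theorem trForm_realize (τ : ∀ i : ι, (L.sum (relLang ar')).Formula (Fin (ar i))) {M : Type}
    (S : (L.sum (relLang ar')).Structure M) {γ : Type} {n : ℕ}
    (φ : (L.sum (relLang ar)).BoundedFormula γ n) (v : γ → M) (xs : Fin n → M) :
    @BoundedFormula.Realize _ _ S _ _ (trForm τ φ) v xs ↔
      @BoundedFormula.Realize _ _ (ind τ S) _ _ φ v xs := by
  induction φ with
  | falsum => exact Iff.rfl
  | equal s t =>
    change (@Term.realize _ _ S _ _ (trTerm s) = @Term.realize _ _ S _ _ (trTerm t)) ↔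
      (@Term.realize _ _ (ind τ S) _ _ s = @Term.realize _ _ (ind τ S) _ _ t)
    rw [trTerm_realize τ, trTerm_realize τ]
  | rel r ts =>
    cases r with
    | inl r =>
      have : (fun i => @Term.realize _ _ S _ (Sum.elim v xs) (trTerm (ts i))) =
          fun i => @Term.realize _ _ (ind τ S) _ (Sum.elim v xs) (ts i) :=
        funext fun i => trTerm_realize τ S _ _
      change @Structure.RelMap _ _ S _ (Sum.inl r : (L.sum (relLang ar')).Relations _)
        (fun i => @Term.realize _ _ S _ (Sum.elim v xs) (trTerm (ts i))) ↔ _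
      rw [this]
      exact Iff.rfl
    | inr r =>
      cases r with
      | mk i =>
        have h1 : (fun i => @Term.realize _ _ S _ (Sum.elim v xs) (trTerm (ts i))) =
            fun i => @Term.realize _ _ (ind τ S) _ (Sum.elim v xs) (ts i) :=
          funext fun i => trTerm_realize τ S _ _
        change @BoundedFormula.Realize _ _ S _ _ (inst (τ i) fun j => trTerm (ts j)) v xs ↔ _
        rw [@realize_inst _ _ S, h1]
        exact Iff.rfl
  | imp φ ψ ih1 ih2 =>
    change (@BoundedFormula.Realize _ _ S _ _ (trForm τ φ) v xs →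
      @BoundedFormula.Realize _ _ S _ _ (trForm τ ψ) v xs) ↔ _
    rw [ih1, ih2]
    exact Iff.rfl
  | all φ ih =>
    change (∀ x : M, @BoundedFormula.Realize _ _ S _ _ (trForm τ φ) v (Fin.snoc xs x)) ↔
      ∀ x : M, @BoundedFormula.Realize _ _ (ind τ S) _ _ φ v (Fin.snoc xs x)
    exact forall_congr' fun x => ih _

theorem mod_trForm (τ : ∀ i : ι, (L.sum (relLang ar')).Formula (Fin (ar i))) {M : Type}
    (S : (L.sum (relLang ar')).Structure M) (φ : (L.sum (relLang ar)).Sentence) :
    Mod S (trForm τ φ) ↔ Mod (ind τ S) φ := trForm_realize τ S φ _ _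

theorem formula_trForm (τ : ∀ i : ι, (L.sum (relLang ar')).Formula (Fin (ar i))) {M : Type}
    (S : (L.sum (relLang ar')).Structure M) {γ : Type} (φ : (L.sum (relLang ar)).Formula γ)
    (v : γ → M) :
    @Formula.Realize _ _ S _ (trForm τ φ) v ↔ @Formula.Realize _ _ (ind τ S) _ φ v :=
  trForm_realize τ S φ _ _

theorem ind_ext {M : Type} {S : (L.sum (relLang ar)).Structure M}
    {S' : (L.sum (relLang ar)).Structure M} (h : red S = red S')
    (hr : ∀ (i : ι) (g : Fin (ar i) → M),
      (@Structure.RelMap _ _ S _ (Sum.inr (.mk i) : (L.sum (relLang ar)).Relations _) g ↔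
      @Structure.RelMap _ _ S' _ (Sum.inr (.mk i) : (L.sum (relLang ar)).Relations _) g)) :
    S = S' := by
  apply Structure.ext
  · funext n f g
    cases f with
    | inl f => exact congrFun (congrFun (congrFun (congrArg (@Structure.funMap L M) h) n) f) g
    | inr e => exact Empty.elim e
  · funext n r g
    cases r with
    | inl r => exact congrFun (congrFun (congrFun (congrArg (@Structure.RelMap L M) h) n) r) g
    | inr r =>
      cases r with
      | mk i => exact propext (hr i g)

/-- the atomic formula `R_i(x_0, ...)` -/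
def atomF (ar : ι → ℕ) (i : ι) : (L.sum (relLang ar)).Formula (Fin (ar i)) :=
  .rel (.inr (.mk i)) fun j => .var (.inl j)

theorem realize_atomF {M : Type} (S : (L.sum (relLang ar)).Structure M) (i : ι)
    (g : Fin (ar i) → M) : @Formula.Realize _ _ S _ (atomF ar i) g ↔
      @Structure.RelMap _ _ S _ (Sum.inr (.mk i) : (L.sum (relLang ar)).Relations _) g := Iff.rfl

theorem ind_atomF {M : Type} (S : (L.sum (relLang ar)).Structure M) :
    ind (fun i => atomF ar i) S = S := ind_ext rfl fun _ _ => Iff.rfl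

theorem ind_ind (τ : ∀ i : ι, (L.sum (relLang ar')).Formula (Fin (ar i)))
    (τ' : ∀ i : ι', (L.sum (relLang ar'')).Formula (Fin (ar' i))) {M : Type}
    (S : (L.sum (relLang ar'')).Structure M) :
    ind τ (ind τ' S) = ind (fun i => trForm τ' (τ i)) S :=
  ind_ext rfl fun i g => (formula_trForm τ' S (τ i) g).symm

theorem ind_congr {τ : ∀ i : ι, (L.sum (relLang ar')).Formula (Fin (ar i))}
    {τ' : ∀ i : ι, (L.sum (relLang ar'')).Formula (Fin (ar i))} {M : Type}
    {S : (L.sum (relLang ar')).Structure M} {S' : (L.sum (relLang ar'')).Structure M}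
    (h : red S = red S') (hτ : ∀ i g, (@Formula.Realize _ _ S _ (τ i) g ↔
      @Formula.Realize _ _ S' _ (τ' i) g)) : ind τ S = ind τ' S' :=
  ind_ext h hτ

end Ind

theorem defines_iff (β α : FinThy L) : Defines β α ↔
    ∃ τ : ∀ i : α.ι, β.lang.Formula (Fin (α.ar i)), ∀ (M : Type) (S : β.lang.Structure M),
      Nonempty M → Mod S β.ax → Mod (ind τ S) α.ax := by
  unfold Defines
  refine exists_congr fun τ => ?_
  rw [proves_iff]
  refine forall_congr' fun M => forall_congr' fun S => forall_congr' fun _ =>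
    forall_congr' fun _ => ?_
  exact mod_trForm τ S α.ax

theorem Defines.refl (α : FinThy L) : Defines α α := by
  rw [defines_iff]
  refine ⟨fun i => atomF α.ar i, fun M S _ h => ?_⟩
  rw [ind_atomF]
  exact h

theorem Defines.trans {α β γ : FinThy L} (h1 : Defines γ β) (h2 : Defines β α) :
    Defines γ α := by
  rw [defines_iff] at *
  obtain ⟨τ', h1⟩ := h1
  obtain ⟨τ, h2⟩ := h2
  refine ⟨fun i => trForm τ' (τ i), fun M S hne h => ?_⟩
  rw [← ind_ind]
  exact h2 M _ hne (h1 M S hne h)

/-- an `L`-sentence as a formula of an expansion -/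
def liftS {ι : Type} (ar : ι → ℕ) (γ : Type) (θ : L.Sentence) : (L.sum (relLang ar)).Formula γ :=
  Formula.relabel Empty.elim ((LHom.sumInl : L →ᴸ L.sum (relLang ar)).onSentence θ)

theorem realize_liftS {ι : Type} {ar : ι → ℕ} {γ : Type} (θ : L.Sentence) {M : Type}
    (S : (L.sum (relLang ar)).Structure M) (v : γ → M) :
    @Formula.Realize _ _ S _ (liftS ar γ θ) v ↔ Mod (red S) θ := by
  let _ := red S
  have := (LHom.sumInl : L →ᴸ L.sum (relLang ar)).isExpansionOn_reduct M
  have h := LHom.realize_onSentence M (LHom.sumInl : L →ᴸ L.sum (relLang ar)) θ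
  refine Iff.trans ?_ h
  unfold liftS
  rw [Formula.realize_relabel]
  have : v ∘ Empty.elim = (default : Empty → M) := funext fun e => e.elim
  rw [this]
  rfl

/-- definition by cases -/
def cs {ι : Type} {ar : ι → ℕ} {γ : Type} (θ : L.Sentence)
    (φ ψ : (L.sum (relLang ar)).Formula γ) : (L.sum (relLang ar)).Formula γ :=
  (liftS ar γ θ ⊓ φ) ⊔ ((liftS ar γ θ).not ⊓ ψ)

theorem realize_cs {ι : Type} {ar : ι → ℕ} {γ : Type} (θ : L.Sentence)
    (φ ψ : (L.sum (relLang ar)).Formula γ) {M : Type}
    (S : (L.sum (relLang ar)).Structure M) (v : γ → M) :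
    @Formula.Realize _ _ S _ (cs θ φ ψ) v ↔
      (Mod (red S) θ ∧ @Formula.Realize _ _ S _ φ v) ∨
      (¬ Mod (red S) θ ∧ @Formula.Realize _ _ S _ ψ v) := by
  unfold cs
  rw [Formula.realize_sup, Formula.realize_inf, Formula.realize_inf, Formula.realize_not,
    realize_liftS]

/-- `α + θ` defines `β` -/
def Dfn (α β : FinThy L) (θ : L.Sentence) : Prop :=
  ∃ τ : ∀ i : β.ι, α.lang.Formula (Fin (β.ar i)), ∀ (M : Type) (S : α.lang.Structure M),
    Nonempty M → Mod S α.ax → Mod (red S) θ → Mod (ind τ S) β.ax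

theorem defines_of_dfn {α β : FinThy L} {θ : L.Sentence} (h1 : Dfn α β θ)
    (h2 : Dfn α β θ.not) : Defines α β := by
  rw [defines_iff]
  obtain ⟨τ1, h1⟩ := h1
  obtain ⟨τ2, h2⟩ := h2
  refine ⟨fun i => cs θ (τ1 i) (τ2 i), fun M S hne h => ?_⟩
  by_cases hθ : Mod (red S) θ
  · have e : ind (fun i => cs θ (τ1 i) (τ2 i)) S = ind τ1 S := by
      refine ind_congr rfl fun i g => ?_
      rw [realize_cs]
      tauto
    rw [e]
    exact h1 M S hne h hθ
  · have e : ind (fun i => cs θ (τ1 i) (τ2 i)) S = ind τ2 S := by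
      refine ind_congr rfl fun i g => ?_
      rw [realize_cs]
      tauto
    rw [e]
    exact h2 M S hne h hθ

section Between

variable (α β : FinThy L) (θ : L.Sentence)

/-- the arities -/
abbrev btwAr : α.ι ⊕ β.ι → ℕ := Sum.elim α.ar β.ar

/-- the `α`-part -/
def btwA (i : α.ι) : (L.sum (relLang (btwAr α β))).Formula (Fin (α.ar i)) :=
  atomF (btwAr α β) (Sum.inl i)

/-- the `β`-part -/
def btwB (i : β.ι) : (L.sum (relLang (btwAr α β))).Formula (Fin (β.ar i)) :=
  atomF (btwAr α β) (Sum.inr i)

/-- the theory `(θ ∧ β) ∨ (¬θ ∧ α)` -/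
noncomputable abbrev btw : FinThy L where
  ι := α.ι ⊕ β.ι
  fin := by
    have := α.fin
    have := β.fin
    infer_instance
  ar := btwAr α β
  ax := cs θ (trForm (btwB α β) β.ax) (trForm (btwA α β) α.ax)

theorem mod_btw {M : Type} (S : (btw α β θ).lang.Structure M) :
    Mod S (btw α β θ).ax ↔ (Mod (red S) θ ∧ Mod (ind (btwB α β) S) β.ax) ∨
      (¬ Mod (red S) θ ∧ Mod (ind (btwA α β) S) α.ax) := by
  rw [← mod_trForm, ← mod_trForm]
  exact realize_cs θ _ _ S _

variable {α β}

theorem btw_defines_left (h : Defines β α) : Defines (btw α β θ) α := by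
  rw [defines_iff] at *
  obtain ⟨τ0, h⟩ := h
  refine ⟨fun i => cs θ (trForm (btwB α β) (τ0 i)) (btwA α β i), fun M S hne hS => ?_⟩
  rw [mod_btw] at hS
  rcases hS with ⟨hθ, hS⟩ | ⟨hθ, hS⟩
  · have e : ind (fun i => cs θ (trForm (btwB α β) (τ0 i)) (btwA α β i)) S =
        ind τ0 (ind (btwB α β) S) := by
      rw [ind_ind]
      refine ind_congr rfl fun i g => ?_
      rw [realize_cs]
      tauto
    rw [e]
    exact h M _ hne hS
  · have e : ind (fun i => cs θ (trForm (btwB α β) (τ0 i)) (btwA α β i)) S =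
        ind (btwA α β) S := by
      refine ind_congr rfl fun i g => ?_
      rw [realize_cs]
      tauto
    rw [e]
    exact hS

theorem defines_btw (h : Defines β α) : Defines β (btw α β θ) := by
  rw [defines_iff] at *
  obtain ⟨τ0, h⟩ := h
  let σ : ∀ j : α.ι ⊕ β.ι, β.lang.Formula (Fin (btwAr α β j)) := fun j =>
    match j with
    | .inl i => τ0 i
    | .inr i => atomF β.ar i
  refine ⟨σ, fun M S hne hS => ?_⟩
  rw [mod_btw]
  by_cases hθ : Mod (red S) θ
  · left
    refine ⟨hθ, ?_⟩
    have e : ind (btwB α β) (ind σ S) = S := ind_ext rfl fun _ _ => Iff.rfl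
    rw [e]
    exact hS
  · right
    refine ⟨hθ, ?_⟩
    have e : ind (btwA α β) (ind σ S) = ind τ0 S := ind_ext rfl fun _ _ => Iff.rfl
    rw [e]
    exact h M S hne hS

theorem dfn_of_defines_btw (h : Defines α (btw α β θ)) : Dfn α β θ := by
  rw [defines_iff] at h
  obtain ⟨σ, h⟩ := h
  refine ⟨fun i => σ (Sum.inr i), fun M S hne hS hθ => ?_⟩
  have h1 := h M S hne hS
  rw [mod_btw] at h1
  rcases h1 with ⟨-, h1⟩ | ⟨h1, -⟩
  · have e : ind (btwB α β) (ind σ S) = ind (fun i => σ (Sum.inr i)) S :=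
      ind_ext rfl fun _ _ => Iff.rfl
    exact (congrArg (fun S' : β.lang.Structure M => Mod S' β.ax) e).mp h1
  · exact absurd hθ h1

theorem dfn_not_of_btw_defines (h : Defines (btw α β θ) β) : Dfn α β θ.not := by
  rw [defines_iff] at h
  obtain ⟨σ, h⟩ := h
  let ρ : ∀ j : α.ι ⊕ β.ι, α.lang.Formula (Fin (btwAr α β j)) := fun j =>
    match j with
    | .inl i => atomF α.ar i
    | .inr i => (⊥ : α.lang.Formula (Fin (β.ar i)))
  refine ⟨fun i => trForm ρ (σ i), fun M S hne hS hθ => ?_⟩
  have h1 := h M (ind ρ S) hne (by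
    rw [mod_btw]
    right
    refine ⟨?_, ?_⟩
    · intro h2
      exact hθ h2
    · have e : ind (btwA α β) (ind ρ S) = S := ind_ext rfl fun _ _ => Iff.rfl
      rw [e]
      exact hS)
  rw [ind_ind] at h1
  exact h1

end Between

/-- the value of the numeral -/
def nu (A : ArSym L) {M : Type} (S : L.Structure M) (n : ℕ) : M :=
  @Term.realize _ _ S _ Empty.elim (numeral A n)

theorem realize_numeral (A : ArSym L) {ι : Type} {ar : ι → ℕ} {M : Type}
    (S : (L.sum (relLang ar)).Structure M) (n : ℕ) (v : Empty → M) :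
    @Term.realize _ _ S _ v ((LHom.sumInl : L →ᴸ L.sum (relLang ar)).onTerm (numeral A n)) =
      nu A (red S) n := by
  let _ := red S
  have := (LHom.sumInl : L →ᴸ L.sum (relLang ar)).isExpansionOn_reduct M
  rw [LHom.realize_onTerm]
  unfold nu
  congr 1
  funext e
  exact e.elim

theorem tarski_iff (A : ArSym L) (α : FinThy L) {M : Type} (S : α.lang.Structure M)
    (Θ : α.lang.Formula (Fin 1)) (σ : L.Sentence) (n : ℕ) :
    Mod S (BoundedFormula.iff
      (Θ.subst fun _ => (LHom.sumInl : L →ᴸ α.lang).onTerm (numeral A n)) (α.up σ)) ↔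
      (@Formula.Realize _ _ S _ Θ (fun _ => nu A (red S) n) ↔ Mod (red S) σ) := by
  rw [← up_iff]
  have h1 : Mod S (BoundedFormula.iff
      (Θ.subst fun _ => (LHom.sumInl : L →ᴸ α.lang).onTerm (numeral A n)) (α.up σ)) ↔
      (Mod S (Θ.subst fun _ => (LHom.sumInl : L →ᴸ α.lang).onTerm (numeral A n)) ↔
        Mod S (α.up σ)) := BoundedFormula.realize_iff
  rw [h1]
  have h2 : Mod S (Θ.subst fun _ => (LHom.sumInl : L →ᴸ α.lang).onTerm (numeral A n)) ↔
      @Formula.Realize _ _ S _ Θ (fun _ => nu A (red S) n) := by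
    have h3 : Mod S (Θ.subst fun _ => (LHom.sumInl : L →ᴸ α.lang).onTerm (numeral A n)) ↔ _ :=
      BoundedFormula.realize_subst
    rw [h3]
    simp only [realize_numeral]
    exact Iff.rfl
  rw [h2]

theorem isTruthDef_btw {A : ArSym L} {T : L.Theory} {gn : L.Sentence → ℕ} {α β : FinThy L}
    (hα : IsTruthDef A T gn α) (hβ : IsTruthDef A T gn β) (θ : L.Sentence) :
    IsTruthDef A T gn (btw α β θ) := by
  obtain ⟨hα1, Θα, hα2⟩ := hα
  obtain ⟨hβ1, Θβ, hβ2⟩ := hβ
  refine ⟨fun σ hσ => ?_, cs θ (trForm (btwB α β) Θβ) (trForm (btwA α β) Θα), fun σ => ?_⟩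
  · rw [proves_iff]
    intro M S hne hS
    rw [up_iff]
    rw [mod_btw] at hS
    rcases hS with ⟨-, hS⟩ | ⟨-, hS⟩
    · have := (proves_iff β _).1 (hβ1 σ hσ) M _ hne hS
      rw [up_iff] at this
      exact this
    · have := (proves_iff α _).1 (hα1 σ hσ) M _ hne hS
      rw [up_iff] at this
      exact this
  · rw [proves_iff]
    intro M S hne hS
    rw [tarski_iff, realize_cs, formula_trForm, formula_trForm]
    rw [mod_btw] at hS
    rcases hS with ⟨hθ, hS⟩ | ⟨hθ, hS⟩
    · have := (proves_iff β _).1 (hβ2 σ) M _ hne hS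
      rw [tarski_iff] at this
      have h2 : (@Formula.Realize _ _ (ind (btwB α β) S) _ Θβ (fun _ => nu A (red S) (gn σ)) ↔
        Mod (red S) σ) := this
      tauto
    · have := (proves_iff α _).1 (hα2 σ) M _ hne hS
      rw [tarski_iff] at this
      have h2 : (@Formula.Realize _ _ (ind (btwA α β) S) _ Θα (fun _ => nu A (red S) (gn σ)) ↔
        Mod (red S) σ) := this
      tauto

end Pool.Agent.Helper83_TruthDef
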