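import Pool.Agent.Common_MRDP.MRDP
import Pool.Agent.Helper83_TruthDef.RE
import Pool.Agent.Helper83_TruthDef.Sem

set_option autoImplicit false

/-!
# Rosser sentences
-/

namespace Pool.Agent.Helper83_TruthDef

open FirstOrder FirstOrder.Language

/-! ### Recursively inseparable sets -/

/-- the number `n` is the code of a function with value `b` at `n` -/
def insep (b n : ℕ) : Prop :=
  b ∈ Nat.Partrec.Code.eval (Denumerable.ofNat Nat.Partrec.Code n) n

theorem insep_sig (b : ℕ) : Sig (insep b) := by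
  refine ⟨fun n k => Nat.Partrec.Code.evaln k (Denumerable.ofNat Nat.Partrec.Code n) n = some b,
    ?_, fun n => Nat.Partrec.Code.evaln_complete⟩
  refine PrimrecRel.comp Primrec.eq ?_ (Primrec.const _)
  exact Nat.Partrec.Code.primrec_evaln.comp (Primrec.pair (Primrec.pair Primrec.snd
    ((Primrec.ofNat _).comp Primrec.fst)) Primrec.fst)

theorem insep_disjoint {n : ℕ} (h0 : insep 0 n) (h1 : insep 1 n) : False := by
  have := Part.mem_unique h0 h1
  omega

theorem insep_spec {C : ℕ → Prop} (hC : ComputablePred C) (h0 : ∀ n, insep 0 n → ¬ C n)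
    (h1 : ∀ n, insep 1 n → C n) : False := by
  obtain ⟨f, hf, rfl⟩ := ComputablePred.computable_iff.1 hC
  have hg : Computable fun n => cond (f n) 0 1 :=
    Computable.cond hf (Computable.const 0) (Computable.const 1)
  obtain ⟨c, hc⟩ := Nat.Partrec.Code.exists_code.1 (Partrec.nat_iff.1 hg.partrec)
  set n := Encodable.encode c with hn
  have hval : ∀ b, b = cond (f n) 0 1 → insep b n := by
    intro b hb
    unfold insep
    rw [hn, Denumerable.ofNat_encode, ← hn, hc]
    simpa using hb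
  cases hfn : f n with
  | true => exact h0 n (hval 0 (by rw [hfn]; rfl)) hfn
  | false =>
    have := h1 n (hval 1 (by rw [hfn]; rfl))
    simp only at this
    rw [hfn] at this
    simp at this

/-! ### Terms and polynomials -/

variable {L : FirstOrder.Language.{0, 0}}

/-- the arithmetical properties needed -/
structure GoodM (A : ArSym L) {M : Type} (S : L.Structure M) : Prop where
  add : ∀ m n, Structure.funMap A.add ![nu A S m, nu A S n] = nu A S (m + n)
  mul : ∀ m n, Structure.funMap A.mul ![nu A S m, nu A S n] = nu A S (m * n)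
  inj : Function.Injective (nu A S)
  le_num : ∀ x n, Structure.RelMap A.le ![x, nu A S n] ↔ ∃ m ≤ n, x = nu A S m
  cmp : ∀ x n, Structure.RelMap A.le ![x, nu A S n] ∨ Structure.RelMap A.le ![nu A S n, x]

theorem realize_relabel_numeral (A : ArSym L) {M : Type} (S : L.Structure M) {γ : Type}
    (v : γ → M) (n : ℕ) : Term.realize v ((numeral A n).relabel Empty.elim) = nu A S n := by
  rw [Term.realize_relabel]
  unfold nu
  congr 1
  funext e
  exact e.elim

theorem exists_terms (A : ArSym L) {k : ℕ} (P : MvPolynomial (Fin k) ℤ) :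
    ∃ (t₁ t₂ : L.Term (Fin k)) (f₁ f₂ : (Fin k → ℕ) → ℕ),
      (∀ v, (f₁ v : ℤ) - f₂ v = MvPolynomial.eval (fun i => (v i : ℤ)) P) ∧
      ∀ (M : Type) (S : L.Structure M), GoodM A S → ∀ v : Fin k → ℕ,
        t₁.realize (fun i => nu A S (v i)) = nu A S (f₁ v) ∧
        t₂.realize (fun i => nu A S (v i)) = nu A S (f₂ v) := by
  induction P using MvPolynomial.induction_on with
  | C a =>
    refine ⟨(numeral A a.toNat).relabel Empty.elim, (numeral A (-a).toNat).relabel Empty.elim,
      fun _ => a.toNat, fun _ => (-a).toNat, fun v => ?_, fun M S _ v => ⟨?_, ?_⟩⟩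
    · rw [MvPolynomial.eval_C]
      beta_reduce
      omega
    · exact realize_relabel_numeral A S _ _
    · exact realize_relabel_numeral A S _ _
  | add p q ihp ihq =>
    obtain ⟨s₁, s₂, f₁, f₂, h1, h2⟩ := ihp
    obtain ⟨t₁, t₂, g₁, g₂, h3, h4⟩ := ihq
    refine ⟨A.add.apply₂ s₁ t₁, A.add.apply₂ s₂ t₂, fun v => f₁ v + g₁ v, fun v => f₂ v + g₂ v,
      fun v => ?_, fun M S hS v => ⟨?_, ?_⟩⟩
    · rw [map_add, ← h1, ← h3]
      push_cast
      ring
    · rw [Term.realize_functions_apply₂, (h2 M S hS v).1, (h4 M S hS v).1, hS.add]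
    · rw [Term.realize_functions_apply₂, (h2 M S hS v).2, (h4 M S hS v).2, hS.add]
  | mul_X p i ihp =>
    obtain ⟨s₁, s₂, f₁, f₂, h1, h2⟩ := ihp
    refine ⟨A.mul.apply₂ s₁ (.var i), A.mul.apply₂ s₂ (.var i), fun v => f₁ v * v i,
      fun v => f₂ v * v i, fun v => ?_, fun M S hS v => ⟨?_, ?_⟩⟩
    · rw [map_mul, ← h1, MvPolynomial.eval_X]
      push_cast
      ring
    · rw [Term.realize_functions_apply₂, (h2 M S hS v).1, Term.realize_var, hS.mul]
    · rw [Term.realize_functions_apply₂, (h2 M S hS v).2, Term.realize_var, hS.mul]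

/-- a set of naturals is `TermDioph` if it is defined by an equation between terms -/
theorem exists_terms_sig (A : ArSym L) {p : ℕ → Prop} (hp : Sig p) :
    ∃ (k : ℕ) (t₁ t₂ : L.Term (Fin (k + 1))) (f₁ f₂ : (Fin (k + 1) → ℕ) → ℕ),
      (∀ a, p a ↔ ∃ x : Fin k → ℕ, f₁ (Fin.cons a x) = f₂ (Fin.cons a x)) ∧
      ∀ (M : Type) (S : L.Structure M), GoodM A S → ∀ v : Fin (k + 1) → ℕ,
        t₁.realize (fun i => nu A S (v i)) = nu A S (f₁ v) ∧
        t₂.realize (fun i => nu A S (v i)) = nu A S (f₂ v) := by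
  obtain ⟨k, P, hP⟩ := MRDP.exists_mvPolynomial_nat hp.rePred
  obtain ⟨t₁, t₂, f₁, f₂, h1, h2⟩ := exists_terms A P
  refine ⟨k, t₁, t₂, f₁, f₂, fun a => ?_, h2⟩
  rw [hP]
  refine exists_congr fun x => ?_
  rw [← h1, sub_eq_zero, Nat.cast_inj]

/-- bounded solvability of an equation -/
noncomputable def bdEq (A : ArSym L) {k : ℕ} (t₁ t₂ : L.Term (Fin (k + 1))) :
    L.Formula (Fin 1 ⊕ Unit) :=
  Formula.iExs (Fin k)
    ((Formula.iInf fun i : Fin k => A.le.formula₂ (Term.var (Sum.inr i))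
      (Term.var (Sum.inl (Sum.inr ())))) ⊓
    (t₁.relabel (Fin.cons (Sum.inl (Sum.inl 0)) fun i => Sum.inr i)).equal
      (t₂.relabel (Fin.cons (Sum.inl (Sum.inl 0)) fun i => Sum.inr i)))

theorem realize_bdEq (A : ArSym L) {k : ℕ} (t₁ t₂ : L.Term (Fin (k + 1))) {M : Type}
    (S : L.Structure M) (a : Fin 1 → M) (s : Unit → M) :
    (bdEq A t₁ t₂).Realize (Sum.elim a s) ↔ ∃ x : Fin k → M,
      (∀ i, Structure.RelMap A.le ![x i, s ()]) ∧
      t₁.realize (Fin.cons (a 0) x : Fin (k + 1) → M) =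
        t₂.realize (Fin.cons (a 0) x : Fin (k + 1) → M) := by
  unfold bdEq
  rw [Formula.realize_iExs]
  refine exists_congr fun x => ?_
  rw [Formula.realize_inf, Formula.realize_iInf, Formula.realize_equal, Term.realize_relabel,
    Term.realize_relabel]
  have e : (Sum.elim (Sum.elim a s) x ∘ (Fin.cons (Sum.inl (Sum.inl 0)) fun i => Sum.inr i :
      Fin (k + 1) → (Fin 1 ⊕ Unit) ⊕ Fin k)) = (Fin.cons (a 0) x : Fin (k + 1) → M) := by
    funext i
    refine Fin.cases ?_ (fun i => ?_) i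
    · rfl
    · rfl
  rw [e]
  refine and_congr (forall_congr' fun i => ?_) Iff.rfl
  rw [Formula.realize_rel₂]
  rfl

theorem cons_nu (A : ArSym L) {M : Type} (S : L.Structure M) {k : ℕ} (n : ℕ) (x : Fin k → ℕ) :
    (Fin.cons (nu A S n) (fun i => nu A S (x i)) : Fin (k + 1) → M) =
      fun i => nu A S ((Fin.cons n x : Fin (k + 1) → ℕ) i) := by
  funext i
  refine Fin.cases ?_ (fun i => ?_) i
  · rfl
  · rfl

theorem exists_rosser (A : ArSym L) : ∃ φ : L.Formula (Fin 1),
    ∀ (M : Type) (S : L.Structure M), GoodM A S → ∀ n,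
      (insep 0 n → φ.Realize (fun _ => nu A S n)) ∧
      (insep 1 n → ¬ φ.Realize (fun _ => nu A S n)) := by
  obtain ⟨k, t₁, t₂, f₁, f₂, hf, ht⟩ := exists_terms_sig A (insep_sig 0)
  obtain ⟨l, u₁, u₂, g₁, g₂, hg, hu⟩ := exists_terms_sig A (insep_sig 1)
  refine ⟨Formula.iExs Unit (bdEq A t₁ t₂ ⊓ (bdEq A u₁ u₂).not), fun M S hS n => ?_⟩
  rw [Formula.realize_iExs]
  simp only [Formula.realize_inf, Formula.realize_not, realize_bdEq]
  constructor
  · intro hn
    obtain ⟨x, hx⟩ := (hf n).1 hn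
    refine ⟨fun _ => nu A S (∑ i, x i), ⟨fun i => nu A S (x i), fun i => ?_, ?_⟩, ?_⟩
    · rw [hS.le_num]
      exact ⟨x i, Finset.single_le_sum (fun _ _ => Nat.zero_le _) (Finset.mem_univ i), rfl⟩
    · rw [cons_nu, (ht M S hS _).1, (ht M S hS _).2, hx]
    · rintro ⟨y, hy, hy2⟩
      have : ∀ i, ∃ m, y i = nu A S m := by
        intro i
        obtain ⟨m, -, hm⟩ := (hS.le_num _ _).1 (hy i)
        exact ⟨m, hm⟩
      choose z hz using this
      obtain rfl : y = fun i => nu A S (z i) := funext hz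
      rw [cons_nu, (hu M S hS _).1, (hu M S hS _).2] at hy2
      exact insep_disjoint hn ((hg n).2 ⟨z, hS.inj hy2⟩)
  · intro hn
    obtain ⟨y, hy⟩ := (hg n).1 hn
    rintro ⟨s, ⟨x, hx, hx2⟩, hno⟩
    by_cases h : ∀ i, Structure.RelMap A.le ![nu A S (y i), s ()]
    · refine hno ⟨fun i => nu A S (y i), h, ?_⟩
      rw [cons_nu, (hu M S hS _).1, (hu M S hS _).2, hy]
    · push Not at h
      obtain ⟨i, hi⟩ := h
      have h := (hS.cmp (s ()) (y i)).resolve_right hi
      obtain ⟨m, -, hm⟩ := (hS.le_num _ _).1 h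
      have : ∀ i, ∃ m, x i = nu A S m := by
        intro i
        have := hx i
        rw [hm] at this
        obtain ⟨m, -, hm⟩ := (hS.le_num _ _).1 this
        exact ⟨m, hm⟩
      choose z hz using this
      obtain rfl : x = fun i => nu A S (z i) := funext hz
      rw [cons_nu, (ht M S hS _).1, (ht M S hS _).2] at hx2
      exact insep_disjoint ((hf n).2 ⟨z, hS.inj hx2⟩) hn

/-- the Rosser sentences -/
noncomputable def ros (A : ArSym L) (n : ℕ) : L.Sentence :=
  (Classical.choose (exists_rosser A)).subst fun _ => numeral A n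

theorem mod_ros (A : ArSym L) (n : ℕ) {M : Type} (S : L.Structure M) :
    Mod S (ros A n) ↔ (Classical.choose (exists_rosser A)).Realize (fun _ => nu A S n) := by
  have h3 : Mod S (ros A n) ↔ _ := BoundedFormula.realize_subst
  rw [h3]
  have : (fun a : Fin 1 => Term.realize (default : Empty → M) (numeral A n)) =
      fun _ => nu A S n := by
    funext _
    unfold nu
    congr 1
    funext e
    exact e.elim
  exact Iff.of_eq (congrArg (fun v => (Classical.choose (exists_rosser A)).Realize v) this)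

theorem ros_spec (A : ArSym L) {M : Type} (S : L.Structure M) (hS : GoodM A S) (n : ℕ) :
    (insep 0 n → Mod S (ros A n)) ∧ (insep 1 n → ¬ Mod S (ros A n)) := by
  rw [mod_ros]
  exact Classical.choose_spec (exists_rosser A) M S hS n

end Pool.Agent.Helper83_TruthDef
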