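import Pool.Agent.Helper83_TruthDef.Bridge
import Pool.Agent.Helper83_TruthDef.Rosser

set_option autoImplicit false

/-!
# The definability order is dense
-/

namespace Pool.Agent.Helper83_TruthDef

open FirstOrder FirstOrder.Language

attribute [local irreducible] catom cimp call ceq csub cfls cnot cand cex

theorem exists_num (L : FirstOrder.Language.{0, 0}) [Countable (Σ n, L.Functions n)]
    [Countable (Σ n, L.Relations n)] :
    ∃ (fn : ∀ n : ℕ, L.Functions n → ℕ) (rn : ∀ n : ℕ, L.Relations n → ℕ), NumOK fn rn := by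
  obtain ⟨f, hf⟩ := exists_injective_nat (Σ n, L.Functions n)
  obtain ⟨g, hg⟩ := exists_injective_nat (Σ n, L.Relations n)
  refine ⟨fun n x => 2 * f ⟨n, x⟩, fun n x => 2 * g ⟨n, x⟩ + 1, ?_, ?_, ?_⟩
  · intro n m x y h
    have h1 : f ⟨n, x⟩ = f ⟨m, y⟩ := by omega
    have h2 := hf h1
    simpa using h2
  · intro n m x y h
    have h1 : g ⟨n, x⟩ = g ⟨m, y⟩ := by omega
    have h2 := hg h1
    simpa using h2
  · intro n m x y h
    omega

section

variable {L : FirstOrder.Language.{0, 0}}

theorem finite_fun {ι : Type} (ar : ι → ℕ) [Finite (Σ n, L.Functions n)] :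
    Finite (Σ n, (L.sum (relLang ar)).Functions n) := by
  let f : (Σ n, (L.sum (relLang ar)).Functions n) → Σ n, L.Functions n := fun x =>
    match x with
    | ⟨n, .inl f⟩ => ⟨n, f⟩
    | ⟨_, .inr e⟩ => Empty.elim e
  refine Finite.of_injective f ?_
  rintro ⟨n, x | x⟩ ⟨m, y | y⟩ h
  · have h' : (⟨n, x⟩ : Σ n, L.Functions n) = ⟨m, y⟩ := h
    cases h'
    rfl
  · exact Empty.elim y
  · exact Empty.elim x
  · exact Empty.elim x

theorem countable_rel {ι : Type} [Countable ι] (ar : ι → ℕ) [Countable (Σ n, L.Relations n)] :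
    Countable (Σ n, (L.sum (relLang ar)).Relations n) := by
  let f : (Σ n, (L.sum (relLang ar)).Relations n) → (Σ n, L.Relations n) ⊕ ι := fun x =>
    match x with
    | ⟨n, .inl f⟩ => .inl ⟨n, f⟩
    | ⟨_, .inr (.mk i)⟩ => .inr i
  refine Function.Injective.countable (f := f) ?_
  rintro ⟨n, x | x⟩ ⟨m, y | y⟩ h
  · have h' : (Sum.inl ⟨n, x⟩ : (Σ n, L.Relations n) ⊕ ι) = Sum.inl ⟨m, y⟩ := h
    cases h'
    rfl
  · cases y with
    | mk i =>
      have h' : (Sum.inl ⟨n, x⟩ : (Σ n, L.Relations n) ⊕ ι) = Sum.inr i := h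
      cases h'
  · cases x with
    | mk i =>
      have h' : (Sum.inr i : (Σ n, L.Relations n) ⊕ ι) = Sum.inl ⟨m, y⟩ := h
      cases h'
  · cases x with
    | mk i =>
      cases y with
      | mk j =>
        have h' : (Sum.inr i : (Σ n, L.Relations n) ⊕ ι) = Sum.inr j := h
        cases h'
        rfl

end

section RE

variable {L : FirstOrder.Language.{0, 0}} (A : ArSym L) (α β : FinThy L)
  (fn : ∀ n : ℕ, α.lang.Functions n → ℕ) (rn : ∀ n : ℕ, α.lang.Relations n → ℕ)

/-- numbering of the function symbols of `β` -/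
def fnB (n : ℕ) (f : β.lang.Functions n) : ℕ :=
  match f with
  | .inl f => fn n (.inl f)
  | .inr e => Empty.elim e

/-- the code of an atomic formula of `α` -/
def kA (n : ℕ) (r : α.lang.Relations n) : ℕ := catom (rn n r) (List.range n)

/-- the code replacing a relation symbol of `β` -/
def kB (e : β.ι → ℕ) (c : List ℕ) (n : ℕ) (r : β.lang.Relations n) : ℕ :=
  match r with
  | .inl r => catom (rn n (.inl r)) (List.range n)
  | .inr (.mk i) => c.getD (e i) 0

/-- the code of `x_0 = n` -/
def cNum : ℕ → ℕ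
  | 0 => catom (fn 0 (.inl A.zero)) [0]
  | n + 1 => cex 1 (cand (csub [1] (cNum n)) (catom (fn 1 (.inl A.succ)) [0, 1]))

theorem prim_cNum : Primrec (cNum A α fn) := by
  have h : Primrec fun n : ℕ => Nat.rec (motive := fun _ => ℕ) (catom (fn 0 (.inl A.zero)) [0])
      (fun _ y => cex 1 (cand (csub [1] y) (catom (fn 1 (.inl A.succ)) [0, 1]))) n := by
    refine Primrec.nat_rec₁ _ ?_
    have h2 : Primrec fun p : ℕ × ℕ =>
        cex 1 (cand (csub [1] p.2) (catom (fn 1 (.inl A.succ)) [0, 1])) :=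
      prim_cex 1 (prim_cand (prim_csub (Primrec.const _) Primrec.snd) (Primrec.const _))
    exact h2
  refine h.of_eq fun n => ?_
  induction n with
  | zero => rfl
  | succ n ih =>
    change cex 1 (cand (csub [1] _) _) = _
    rw [ih]
    rfl

variable {α β fn rn}

theorem sat_cNum {M : Type} {R : ℕ → List M → Prop} {m0 : M} (S : α.lang.Structure M)
    (hf : @FunOK _ fn M S R) (n : ℕ) : ∀ w : ℕ → M,
    Sat R m0 (cNum A α fn n) w ↔ w 0 = nu A (red S) n := by
  induction n with
  | zero =>
    intro w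
    rw [cNum, sat_atom]
    have h1 := hf 0 (.inl A.zero) ![] (w 0)
    rw [List.ofFn_zero] at h1
    refine h1.trans ?_
    have : @Structure.funMap _ _ S _ (Sum.inl A.zero : α.lang.Functions 0) ![] =
        nu A (red S) 0 := by
      change @Structure.funMap _ _ S _ (Sum.inl A.zero : α.lang.Functions 0) _ =
        @Structure.funMap _ _ S _ (Sum.inl A.zero : α.lang.Functions 0) _
      congr 1
      exact Subsingleton.elim _ _
    rw [this]
  | succ n ih =>
    intro w
    rw [cNum, sat_ex]
    have key : ∀ m, Sat R m0 (cand (csub [1] (cNum A α fn n))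
        (catom (fn 1 (.inl A.succ)) [0, 1])) (Function.update w 1 m) ↔
        (m = nu A (red S) n ∧ w 0 = @Structure.funMap _ _ S _
          (Sum.inl A.succ : α.lang.Functions 1) ![m]) := by
      intro m
      rw [sat_and, sat_sub, ih, sat_atom]
      refine and_congr ?_ ?_
      · simp
      · have h1 := hf 1 (.inl A.succ) ![m] (w 0)
        have h2 : List.map (Function.update w 1 m) [0, 1] = w 0 :: List.ofFn ![m] := by
          simp
        rw [h2]
        exact h1
    have hs : nu A (red S) (n + 1) = @Structure.funMap _ _ S _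
        (Sum.inl A.succ : α.lang.Functions 1) ![nu A (red S) n] := by
      change @Structure.funMap _ _ S _ (Sum.inl A.succ : α.lang.Functions 1) _ = _
      congr 1
      funext i
      fin_cases i
      rfl
    constructor
    · rintro ⟨m, hm⟩
      obtain ⟨h1, h2⟩ := (key m).1 hm
      rw [h2, h1, hs]
    · intro h
      exact ⟨nu A (red S) n, (key _).2 ⟨rfl, by rw [h, hs]⟩⟩

variable (α β fn rn) in
/-- the code of `F0 → α → θ → β^τ` -/
noncomputable def Phi [Finite (Σ n, α.lang.Functions n)] (e : β.ι → ℕ) (t : ℕ) (c : List ℕ) : ℕ :=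
  cimp (F0 fn) (cimp (tr fn (kA α rn) Empty.elim 0 α.ax)
    (cimp t (tr (fnB α β fn) (kB α β rn e c) Empty.elim 0 β.ax)))

/-- the structure determined by a relational structure -/
theorem exists_struct {L' : FirstOrder.Language.{0, 0}} {fn : ∀ n : ℕ, L'.Functions n → ℕ}
    {rn : ∀ n : ℕ, L'.Relations n → ℕ} {M : Type} {R : ℕ → List M → Prop} {m0 : M}
    (h : ∀ n (f : L'.Functions n) (g : Fin n → M),
      ∃ y, R (fn n f) (y :: List.ofFn g) ∧ ∀ y', R (fn n f) (y' :: List.ofFn g) → y' = y) :
    ∃ S : L'.Structure M, @FunOK _ fn M S R ∧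
      @RelOK _ (fun n r => catom (rn n r) (List.range n)) M S R m0 := by
  choose F hF hF2 using h
  refine ⟨⟨fun {n} f g => F n f g, fun {n} r g => R (rn n r) (List.ofFn g)⟩, ?_, ?_⟩
  · intro n f g y
    constructor
    · exact hF2 n f g y
    · rintro rfl
      exact hF n f g
  · intro n r g
    rw [sat_atom]
    have e : (List.range n).map (fun i => (List.ofFn g).getD i m0) = List.ofFn g := by
      apply List.ext_getElem
      · simp
      · intro i h1 h2
        simp only [List.getElem_map, List.getElem_range]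
        rw [List.getD_eq_getElem _ _ h2]
    rw [e]
    exact Iff.rfl

/-- compatibility for `β` -/
theorem funOK_ind {M : Type} {R : ℕ → List M → Prop} (S : α.lang.Structure M)
    (hf : @FunOK _ fn M S R) (τ : ∀ i : β.ι, α.lang.Formula (Fin (β.ar i))) :
    @FunOK _ (fnB α β fn) M (ind τ S) R := by
  intro n f g y
  cases f with
  | inl f => exact hf n (.inl f) g y
  | inr e => exact Empty.elim e

theorem relOK_ind {M : Type} {R : ℕ → List M → Prop} {m0 : M} (S : α.lang.Structure M)
    (hr : @RelOK _ (kA α rn) M S R m0) (τ : ∀ i : β.ι, α.lang.Formula (Fin (β.ar i)))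
    (e : β.ι → ℕ) (c : List ℕ)
    (hc : ∀ i (g : Fin (β.ar i) → M), Sat R m0 (c.getD (e i) 0) (fun j => (List.ofFn g).getD j m0) ↔
      @Formula.Realize _ _ S _ (τ i) g) :
    @RelOK _ (kB α β rn e c) M (ind τ S) R m0 := by
  intro n r g
  cases r with
  | inl r => exact hr n (.inl r) g
  | inr r =>
    cases r with
    | mk i => exact hc i g

/-- a sentence and its code -/
def CodeOK (α : FinThy L) (fn : ∀ n : ℕ, α.lang.Functions n → ℕ)
    (rn : ∀ n : ℕ, α.lang.Relations n → ℕ) (θ : L.Sentence) (t : ℕ) : Prop :=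
  ∀ (M : Type) (R : ℕ → List M → Prop) (m0 : M) (S : α.lang.Structure M), @FunOK _ fn M S R →
    @RelOK _ (kA α rn) M S R m0 → ∀ w, (Sat R m0 t w ↔ Mod (red S) θ)

theorem sat_sentence {L' : FirstOrder.Language.{0, 0}} {fn : ∀ n : ℕ, L'.Functions n → ℕ}
    {κ : ∀ n : ℕ, L'.Relations n → ℕ} {M : Type} {R : ℕ → List M → Prop} {m0 : M}
    (S : L'.Structure M) (hf : @FunOK _ fn M S R) (hr : @RelOK _ κ M S R m0)
    (φ : L'.Sentence) (w : ℕ → M) : Sat R m0 (tr fn κ Empty.elim 0 φ) w ↔ Mod S φ := by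
  rw [tr_sat fn κ hf hr Empty.elim 0 (fun a => a.elim) φ w]
  have h1 : (fun a : Empty => w (Empty.elim a)) = default := funext fun a => a.elim
  have h2 : (fun i : Fin 0 => w (0 + i)) = default := funext fun i => i.elim0
  rw [h1, h2]
  exact Iff.rfl

theorem dfn_iff [Finite (Σ n, α.lang.Functions n)] (hnum : NumOK fn rn) (A : ArSym L)
    {e : β.ι → ℕ} (he : Function.Injective e) {θ : L.Sentence} {t : ℕ}
    (hθ : CodeOK α fn rn θ t) :
    Dfn α β θ ↔ ∃ c : List ℕ, Valid (Phi α β fn rn e t c) := by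
  classical
  have := β.fin
  constructor
  · rintro ⟨τ, hτ⟩
    -- the list of the codes
    have hlist : ∃ c : List ℕ, ∀ i, c.getD (e i) 0 =
        tr fn (kA α rn) (fun a : Fin (β.ar i) => (a : ℕ)) (β.ar i) (τ i) := by
      obtain ⟨N, hN⟩ : ∃ N, ∀ i, e i < N := by
        obtain ⟨N, hN⟩ := (Set.finite_range e).bddAbove
        exact ⟨N + 1, fun i => Nat.lt_succ_of_le (hN ⟨i, rfl⟩)⟩
      refine ⟨(List.range N).map fun j => if h : ∃ i, e i = j then
        tr fn (kA α rn) (fun a : Fin (β.ar h.choose) => (a : ℕ)) (β.ar h.choose)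
          (τ h.choose) else 0, fun i => ?_⟩
      rw [List.getD_eq_getElem _ _ (by simpa using hN i), List.getElem_map, List.getElem_range]
      have h : ∃ i', e i' = e i := ⟨i, rfl⟩
      rw [dif_pos h]
      have h2 : h.choose = i := he h.choose_spec
      rw [h2]
    obtain ⟨c, hc⟩ := hlist
    refine ⟨c, fun M R m0 => ?_⟩
    unfold Phi
    rw [sat_imp, sat_imp, sat_imp, sat_F0]
    intro h1 h2 h3
    obtain ⟨S, hf, hr'⟩ := exists_struct (rn := rn) (m0 := m0) h1
    have hr : @RelOK _ (kA α rn) M S R m0 := hr'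
    rw [sat_sentence S hf hr] at h2
    rw [hθ M R m0 S hf hr] at h3
    have h4 := hτ M S ⟨m0⟩ h2 h3
    rw [sat_sentence (ind τ S) (funOK_ind S hf τ) (relOK_ind S hr τ e c ?_)]
    · exact h4
    · intro i g
      rw [hc, tr_sat fn (kA α rn) hf hr _ _ (fun a => a.2)]
      have e1 : (fun a : Fin (β.ar i) => (List.ofFn g).getD (a : ℕ) m0) = g := by
        funext a
        rw [List.getD_eq_getElem _ _ (by simp)]
        simp
      rw [e1, Formula.Realize]
      have e2 : (fun i_1 : Fin 0 => (List.ofFn g).getD (β.ar i + i_1) m0) = default :=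
        funext fun i => i.elim0
      rw [e2]
  · rintro ⟨c, hc⟩
    let z : α.lang.Term Empty := .func (.inl A.zero) ![]
    choose φ hφ using fun i : β.ι => exists_formula hnum z (c.getD (e i) 0)
    refine ⟨fun i => (φ i).subst fun m => if h : m < β.ar i then .var ⟨m, h⟩ else
      z.relabel Empty.elim, fun M S hne h1 h2 => ?_⟩
    have h3 := hc M (RM fn rn M) (z.realize Empty.elim)
    unfold Phi at h3
    rw [sat_imp, sat_imp, sat_imp, sat_F0] at h3
    have hf := funOK_RM hnum M
    have hr : @RelOK _ (kA α rn) M S (RM fn rn M) (z.realize Empty.elim) :=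
      relOK_RM hnum M (z.realize Empty.elim)
    have h4 := h3 (fun n f g => ⟨Structure.funMap f g, (hf n f g _).2 rfl,
      fun y' hy => (hf n f g y').1 hy⟩) ((sat_sentence S hf hr _ _).2 h1)
      ((hθ M _ _ S hf hr _).2 h2)
    rw [sat_sentence (ind _ S) (funOK_ind S hf _) (relOK_ind S hr _ e c ?_)] at h4
    · exact h4
    · intro i g
      rw [hφ i M]
      change _ ↔ BoundedFormula.Realize _ g default
      rw [BoundedFormula.realize_subst]
      have e1 : (fun j => (List.ofFn g).getD j (z.realize Empty.elim)) = fun a =>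
          (if h : a < β.ar i then (.var ⟨a, h⟩ : α.lang.Term (Fin (β.ar i))) else
            z.relabel Empty.elim).realize g := by
        funext a
        split_ifs with ha
        · rw [List.getD_eq_getElem _ _ (by simpa using ha)]
          simp
        · rw [List.getD_eq_default _ _ (by simpa using ha), Term.realize_relabel]
          congr 1
          funext x
          exact x.elim
      rw [e1]
      exact Iff.rfl

theorem sig_dfn [Finite (Σ n, α.lang.Functions n)] (hnum : NumOK fn rn) (A : ArSym L)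
    {e : β.ι → ℕ} (he : Function.Injective e) {θ : ℕ → L.Sentence} {t : ℕ → ℕ}
    (ht : Primrec t) (hθ : ∀ n, CodeOK α fn rn (θ n) (t n)) :
    Sig fun n => Dfn α β (θ n) := by
  have h1 : ∀ n, Dfn α β (θ n) ↔ ∃ c : List ℕ, Valid (Phi α β fn rn e (t n) c) :=
    fun n => dfn_iff hnum A he (hθ n)
  have h2 : (fun n => Dfn α β (θ n)) = fun n => ∃ c : List ℕ,
      Valid (Phi α β fn rn e (t n) c) := funext fun n => propext (h1 n)
  rw [h2]
  refine valid_sig.proj (f := fun n m => Phi α β fn rn e (t n) (Denumerable.ofNat (List ℕ) m))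
    ?_ (fun n c => by rw [Denumerable.ofNat_encode])
  unfold Phi
  refine prim_cimp (Primrec.const _) (prim_cimp (Primrec.const _)
    (prim_cimp (ht.comp Primrec.fst) ?_))
  refine prim_tr (fnB α β fn) (fun p : ℕ × ℕ => kB α β rn e (Denumerable.ofNat (List ℕ) p.2))
    ?_ _ _ _
  intro n r
  cases r with
  | inl r => exact Primrec.const _
  | inr r =>
    cases r with
    | mk i =>
      exact prim_getD ((Primrec.ofNat (List ℕ)).comp Primrec.snd) (Primrec.const _)

/-! ### Codes of the Rosser sentences -/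

variable (α fn rn) in
/-- the code of the Rosser sentence -/
noncomputable def cRos (n : ℕ) : ℕ :=
  cex 0 (cand (cNum A α fn n) (tr fn (kA α rn) (fun _ : Fin 1 => 0) 1
    ((LHom.sumInl : L →ᴸ α.lang).onFormula (Classical.choose (exists_rosser A)))))

theorem prim_cRos : Primrec (cRos A α fn rn) :=
  prim_cex 0 (prim_cand (prim_cNum A α fn) (Primrec.const _))

theorem codeOK_cRos (n : ℕ) : CodeOK α fn rn (ros A n) (cRos A α fn rn n) := by
  intro M R m0 S hf hr w
  rw [mod_ros, cRos, sat_ex]
  have key : ∀ m, Sat R m0 (cand (cNum A α fn n) (tr fn (kA α rn) (fun _ : Fin 1 => 0) 1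
      ((LHom.sumInl : L →ᴸ α.lang).onFormula (Classical.choose (exists_rosser A)))))
      (Function.update w 0 m) ↔
      (m = nu A (red S) n ∧
        @Formula.Realize _ _ (red S) _ (Classical.choose (exists_rosser A)) (fun _ => m)) := by
    intro m
    rw [sat_and, sat_cNum A S hf, tr_sat fn (kA α rn) hf hr _ _ (fun _ => by omega),
      Function.update_self]
    refine and_congr Iff.rfl ?_
    let _ := red S
    have := (LHom.sumInl : L →ᴸ L.sum (relLang α.ar)).isExpansionOn_reduct M
    have h := LHom.realize_onFormula (M := M) (LHom.sumInl : L →ᴸ L.sum (relLang α.ar))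
      (Classical.choose (exists_rosser A)) (v := fun _ => m)
    have e : (fun i : Fin 0 => Function.update w 0 m (1 + i)) = default :=
      funext fun i => i.elim0
    rw [e]
    exact h
  constructor
  · rintro ⟨m, hm⟩
    obtain ⟨rfl, h⟩ := (key m).1 hm
    exact h
  · intro h
    exact ⟨_, (key _).2 ⟨rfl, h⟩⟩

theorem codeOK_not {θ : L.Sentence} {t : ℕ} (h : CodeOK α fn rn θ t) :
    CodeOK α fn rn θ.not (cnot t) := by
  intro M R m0 S hf hr w
  rw [sat_not, h M R m0 S hf hr w]
  exact Iff.rfl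

end RE

section Final

variable {L : FirstOrder.Language.{0, 0}} [Finite (Σ n, L.Functions n)]
  [Countable (Σ n, L.Relations n)] {A : ArSym L} {T : L.Theory}

/-- `T` contains enough arithmetic -/
def Arith (A : ArSym L) (T : L.Theory) : Prop :=
  ∀ (M : Type) (S : L.Structure M), Nonempty M → (∀ σ ∈ T, Mod S σ) → GoodM A S

theorem exists_split (hT : Arith A T) {α β : FinThy L} (hα : ∀ σ ∈ T, α.Proves (α.up σ))
    (hab : ¬ Defines α β) : ∃ θ : L.Sentence, ¬ Dfn α β θ ∧ ¬ Dfn α β θ.not := by
  have hαf := α.fin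
  have hβf := β.fin
  have hff := finite_fun (L := L) α.ar
  have hcr := countable_rel (L := L) α.ar
  obtain ⟨fn, rn, hnum⟩ := exists_num α.lang
  obtain ⟨e, he⟩ := exists_injective_nat β.ι
  by_contra hcon
  push Not at hcon
  have hgood : ∀ (M : Type) (S : α.lang.Structure M), Nonempty M → Mod S α.ax →
      GoodM A (red S) := by
    intro M S hne hS
    refine hT M (red S) hne fun σ hσ => ?_
    rw [← up_iff]
    exact (proves_iff α _).1 (hα σ hσ) M S hne hS
  have hexcl : ∀ θ, Dfn α β θ → ¬ Dfn α β θ.not := fun θ h1 h2 => hab (defines_of_dfn h1 h2)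
  have s1 : Sig fun n => Dfn α β (ros A n) := sig_dfn hnum A he (prim_cRos A) (codeOK_cRos A)
  have s2 : Sig fun n => Dfn α β (ros A n).not :=
    sig_dfn hnum A he (prim_cnot (prim_cRos A)) fun n => codeOK_not (codeOK_cRos A n)
  have e2 : (fun n => Dfn α β (ros A n).not) = fun n => ¬ Dfn α β (ros A n) := by
    funext n
    apply propext
    constructor
    · intro h1 h2
      exact hexcl _ h2 h1
    · exact hcon _
  rw [e2] at s2
  have hcomp : ComputablePred fun n => Dfn α β (ros A n) :=
    ComputablePred.computable_iff_re_compl_re'.2 ⟨s1.rePred, s2.rePred⟩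
  have hbot : ∀ θ : L.Sentence, (∀ (M : Type) (S : α.lang.Structure M), Nonempty M →
      Mod S α.ax → ¬ Mod (red S) θ) → Dfn α β θ := by
    intro θ h
    exact ⟨fun i => ⊥, fun M S hne h1 h2 => absurd h2 (h M S hne h1)⟩
  refine insep_spec hcomp ?_ ?_
  · intro n hn h
    refine hexcl _ h (hbot _ fun M S hne hS h2 => ?_)
    exact h2 ((ros_spec A _ (hgood M S hne hS) n).1 hn)
  · intro n hn
    exact hbot _ fun M S hne hS => (ros_spec A _ (hgood M S hne hS) n).2 hn

/-- the definability order is dense -/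
theorem dense (hT : Arith A T) {gn : L.Sentence → ℕ} {α β : FinThy L}
    (hα : IsTruthDef A T gn α) (hβ : IsTruthDef A T gn β) (h : Defines β α)
    (h' : ¬ Defines α β) : ∃ γ, IsTruthDef A T gn γ ∧ Defines γ α ∧ Defines β γ ∧
      ¬ Defines α γ ∧ ¬ Defines γ β := by
  obtain ⟨θ, h1, h2⟩ := exists_split hT hα.1 h'
  exact ⟨btw α β θ, isTruthDef_btw hα hβ θ, btw_defines_left θ h, defines_btw θ h,
    fun h3 => h1 (dfn_of_defines_btw θ h3), fun h3 => h2 (dfn_not_of_btw_defines θ h3)⟩

/-- a finite interval has equivalent end points -/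
theorem finite_interval (hT : Arith A T) {gn : L.Sentence → ℕ} {α β : FinThy L}
    (hα : IsTruthDef A T gn α) (hβ : IsTruthDef A T gn β) (h : Defines β α)
    (hfin : ∃ F : Set (FinThy L), F.Finite ∧ ∀ γ, IsTruthDef A T gn γ → Defines γ α →
      Defines β γ → ∃ δ ∈ F, Defines γ δ ∧ Defines δ γ) : Defines α β := by
  by_contra h'
  obtain ⟨F, hF, hcov⟩ := hfin
  let P : Type 1 := {γ : FinThy L // IsTruthDef A T gn γ ∧ Defines γ α ∧ Defines β γ ∧
    ¬ Defines α γ}
  have step : ∀ γ : P, ∃ δ : P, Defines γ.1 δ.1 ∧ ¬ Defines δ.1 γ.1 := by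
    rintro ⟨γ, h1, h2, h3, h4⟩
    obtain ⟨δ, d1, d2, d3, d4, d5⟩ := dense hT hα h1 h2 h4
    exact ⟨⟨δ, d1, d2, h3.trans d3, d4⟩, d3, d5⟩
  choose f hf1 hf2 using step
  let g : ℕ → P := fun n => Nat.rec ⟨β, hβ, h, Defines.refl β, h'⟩ (fun _ γ => f γ) n
  have hg : ∀ n, g (n + 1) = f (g n) := fun n => rfl
  have hmono : ∀ m k, Defines (g m).1 (g (m + k)).1 := by
    intro m k
    induction k with
    | zero => exact Defines.refl _
    | succ k ih =>
      refine ih.trans ?_
      rw [← add_assoc, hg]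
      exact hf1 _
  have hstrict : ∀ m k, ¬ Defines (g (m + 1 + k)).1 (g m).1 := by
    intro m k hd
    apply hf2 (g m)
    rw [← hg]
    exact (hmono (m + 1) k).trans hd
  have hc : ∀ n, ∃ δ : F, Defines (g n).1 δ.1 ∧ Defines δ.1 (g n).1 := by
    intro n
    obtain ⟨δ, hδ, h1, h2⟩ := hcov (g n).1 (g n).2.1 (g n).2.2.1 (g n).2.2.2.1
    exact ⟨⟨δ, hδ⟩, h1, h2⟩
  choose d hd1 hd2 using hc
  have := hF.to_subtype
  obtain ⟨m, n, hmn, he⟩ := Finite.exists_ne_map_eq_of_infinite d
  rcases lt_or_gt_of_ne hmn with hlt | hlt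
  · obtain ⟨k, rfl⟩ := Nat.exists_eq_add_of_le (Nat.succ_le_of_lt hlt)
    apply hstrict m k
    refine (hd1 _).trans ?_
    have h2 := hd2 m
    rw [he] at h2
    exact h2
  · obtain ⟨k, rfl⟩ := Nat.exists_eq_add_of_le (Nat.succ_le_of_lt hlt)
    apply hstrict n k
    refine (hd1 _).trans ?_
    have h2 := hd2 n
    rw [← he] at h2
    exact h2

end Final

end Pool.Agent.Helper83_TruthDef
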