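import Pool.Agent.Helper83_TruthDef.EADefs
import Pool.Agent.Helper83_TruthDef.Main

set_option autoImplicit false

/-!
# Elementary arithmetic contains enough arithmetic
-/

namespace Pool.Agent.Helper83_TruthDef

open FirstOrder FirstOrder.Language

theorem nu_zero {L : FirstOrder.Language.{0, 0}} (A : ArSym L) {M : Type} (S : L.Structure M) :
    nu A S 0 = Structure.funMap A.zero ![] := by
  change Structure.funMap A.zero _ = Structure.funMap A.zero _
  congr 1
  exact Subsingleton.elim _ _

theorem nu_succ {L : FirstOrder.Language.{0, 0}} (A : ArSym L) {M : Type} (S : L.Structure M)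
    (n : ℕ) : nu A S (n + 1) = Structure.funMap A.succ ![nu A S n] := by
  change Structure.funMap A.succ _ = Structure.funMap A.succ _
  congr 1
  funext i
  fin_cases i
  rfl

/-- the symbol `0` -/
abbrev fZ : LA.Functions 0 := ArFun.zero
/-- the symbol `S` -/
abbrev fS : LA.Functions 1 := ArFun.succ
/-- the symbol `+` -/
abbrev fA : LA.Functions 2 := ArFun.add
/-- the symbol `·` -/
abbrev fM : LA.Functions 2 := ArFun.mul
/-- the symbol `≤` -/
abbrev rL : LA.Relations 2 := ArRel.le

section Basic

variable {M : Type} [LA.Structure M] {γ : Type} (v : γ → M)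

theorem realize_tZ : (tZ : LA.Term γ).realize v = Structure.funMap fZ ![] := by
  change Structure.funMap fZ _ = Structure.funMap fZ _
  congr 1
  exact Subsingleton.elim _ _

theorem realize_tS (t : LA.Term γ) :
    (tS t).realize v = Structure.funMap fS ![t.realize v] := by
  change Structure.funMap fS _ = Structure.funMap fS _
  congr 1
  funext i
  fin_cases i
  rfl

theorem realize_tAdd (s t : LA.Term γ) :
    (tAdd s t).realize v = Structure.funMap fA ![s.realize v, t.realize v] := by
  change Structure.funMap fA _ = Structure.funMap fA _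
  congr 1
  funext i
  fin_cases i <;> rfl

theorem realize_tMul (s t : LA.Term γ) :
    (tMul s t).realize v = Structure.funMap fM ![s.realize v, t.realize v] := by
  change Structure.funMap fM _ = Structure.funMap fM _
  congr 1
  funext i
  fin_cases i <;> rfl

theorem realize_leF {n : ℕ} (s t : LA.Term (γ ⊕ Fin n)) (xs : Fin n → M) :
    (leF s t).Realize v xs ↔ Structure.RelMap rL
      ![s.realize (Sum.elim v xs), t.realize (Sum.elim v xs)] := by
  change Structure.RelMap rL _ ↔ Structure.RelMap rL _
  have : (fun i => Term.realize (Sum.elim v xs) (![s, t] i)) =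
      ![s.realize (Sum.elim v xs), t.realize (Sum.elim v xs)] := by
    funext i
    fin_cases i <;> rfl
  rw [this]

end Basic

section EAModels

variable {M : Type} (S : LA.Structure M) (hS : ∀ σ ∈ EA, Mod S σ)

include hS

theorem ea1 (x : M) : (Structure.funMap fS ![x] : M) ≠ Structure.funMap fZ ![] := by
  have h : Mod S (.all (.not (.equal (tS (xv 0 0)) tZ))) := hS _ (Or.inl (by simp [basicAx]))
  have h2 := h x
  intro h3
  apply h2
  change Term.realize _ _ = Term.realize _ _
  rw [realize_tS, realize_tZ]
  exact h3

theorem ea2 (x y : M) (hxy : (Structure.funMap fS ![x] : M) =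
    Structure.funMap fS ![y]) : x = y := by
  have h : Mod S (.all (.all (.imp (.equal (tS (xv 1 0)) (tS (xv 1 1)))
    (.equal (xv 1 0) (xv 1 1))))) := hS _ (Or.inl (by simp [basicAx]))
  refine h x y ?_
  change Term.realize _ _ = Term.realize _ _
  rw [realize_tS, realize_tS]
  exact hxy

theorem ea3 (x : M) : (Structure.funMap fA ![x, Structure.funMap fZ ![] ] : M) = x := by
  have h : Mod S (.all (.equal (tAdd (xv 0 0) tZ) (xv 0 0))) :=
    hS _ (Or.inl (by simp [basicAx]))
  have h2 := h x
  change Term.realize _ _ = Term.realize _ _ at h2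
  rw [realize_tAdd, realize_tZ] at h2
  exact h2

theorem ea4 (x y : M) : (Structure.funMap fA ![x, Structure.funMap fS ![y] ] : M) =
    Structure.funMap fS ![Structure.funMap fA ![x, y] ] := by
  have h : Mod S (.all (.all (.equal (tAdd (xv 1 0) (tS (xv 1 1)))
    (tS (tAdd (xv 1 0) (xv 1 1)))))) := hS _ (Or.inl (by simp [basicAx]))
  have h2 := h x y
  change Term.realize _ _ = Term.realize _ _ at h2
  rw [realize_tAdd, realize_tS, realize_tS, realize_tAdd] at h2
  exact h2

theorem ea5 (x : M) : (Structure.funMap fM ![x, Structure.funMap fZ ![] ] : M) =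
    Structure.funMap fZ ![] := by
  have h : Mod S (.all (.equal (tMul (xv 0 0) tZ) tZ)) :=
    hS _ (Or.inl (by simp [basicAx]))
  have h2 := h x
  change Term.realize _ _ = Term.realize _ _ at h2
  rw [realize_tMul, realize_tZ] at h2
  exact h2

theorem ea6 (x y : M) : (Structure.funMap fM ![x, Structure.funMap fS ![y] ] : M) =
    Structure.funMap fA ![Structure.funMap fM ![x, y], x] := by
  have h : Mod S (.all (.all (.equal (tMul (xv 1 0) (tS (xv 1 1)))
    (tAdd (tMul (xv 1 0) (xv 1 1)) (xv 1 0))))) := hS _ (Or.inl (by simp [basicAx]))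
  have h2 := h x y
  change Term.realize _ _ = Term.realize _ _ at h2
  rw [realize_tMul, realize_tS, realize_tAdd, realize_tMul] at h2
  exact h2

theorem ea9 (x : M) : Structure.RelMap rL ![x, Structure.funMap fZ ![] ] ↔
    x = Structure.funMap fZ ![] := by
  have h : Mod S (.all (.iff (leF (xv 0 0) tZ) (.equal (xv 0 0) tZ))) :=
    hS _ (Or.inl (by simp [basicAx]))
  have h2 := h x
  rw [BoundedFormula.realize_iff, realize_leF] at h2
  change _ ↔ Term.realize _ _ = Term.realize _ _ at h2
  rw [realize_tZ] at h2
  exact h2

theorem ea10 (x y : M) : Structure.RelMap rL ![x, Structure.funMap fS ![y] ] ↔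
    (Structure.RelMap rL ![x, y] ∨ x = Structure.funMap fS ![y]) := by
  have h : Mod S (.all (.all (.iff (leF (xv 1 0) (tS (xv 1 1)))
      (leF (xv 1 0) (xv 1 1) ⊔ .equal (xv 1 0) (tS (xv 1 1)))))) :=
    hS _ (Or.inl (by simp [basicAx]))
  have h2 := h x y
  rw [BoundedFormula.realize_iff, BoundedFormula.realize_sup, realize_leF, realize_leF] at h2
  change _ ↔ (_ ∨ Term.realize _ _ = Term.realize _ _) at h2
  rw [realize_tS] at h2
  exact h2

theorem eaInd (φ : LA.BoundedFormula Empty 1) (hφ : IsBdd φ)
    (h0 : φ.Realize (default : Empty → M) (fun _ => (Structure.funMap fZ ![] : M)))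
    (hs : ∀ x : M, φ.Realize (default : Empty → M) (fun _ => x) →
      φ.Realize (default : Empty → M) (fun _ => (Structure.funMap fS ![x] : M))) (x : M) :
    φ.Realize (default : Empty → M) (fun _ => x) := by
  have h : Mod S (indAx φ) := hS _ (Or.inr ⟨0, φ, hφ, rfl⟩)
  have e1 : ∀ y : M, (Fin.snoc (default : Fin 0 → M) y : Fin 1 → M) = fun _ => y := by
    intro y
    funext i
    fin_cases i
    rfl
  have h2 := h ?_ ?_ x
  · change φ.Realize default (Fin.snoc (default : Fin 0 → M) x) at h2
    rw [e1] at h2
    exact h2
  · intro y hy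
    change Term.realize _ _ = Term.realize _ _ at hy
    rw [realize_tZ] at hy
    change φ.Realize default (Fin.snoc (default : Fin 0 → M) y)
    rw [e1]
    have hy' : y = Structure.funMap fZ ![] := hy
    rw [hy']
    exact h0
  · intro y hy w hw
    change Term.realize _ _ = Term.realize _ _ at hw
    rw [realize_tS] at hw
    have hw' : w = Structure.funMap fS ![y] := hw
    have hy' : φ.Realize default (Fin.snoc (default : Fin 0 → M) y) := hy
    rw [e1] at hy'
    change (φ.liftAt 1 0).Realize default
      (Fin.snoc (Fin.snoc (default : Fin 0 → M) y : Fin 1 → M) w : Fin 2 → M)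
    rw [BoundedFormula.realize_liftAt_one (Nat.zero_le _)]
    have e2 : ((Fin.snoc (Fin.snoc (default : Fin 0 → M) y : Fin 1 → M) w : Fin 2 → M) ∘
        fun i : Fin 1 => if (i : ℕ) < 0 then Fin.castSucc i else i.succ) = fun _ => w := by
      funext i
      fin_cases i
      rfl
    rw [e2, hw']
    exact hs y hy'

theorem good_EA : GoodM symLA S := by
  have hz := nu_zero symLA S
  have hsu := nu_succ symLA S
  have hle : ∀ x n, Structure.RelMap rL ![x, nu symLA S n] ↔ ∃ m ≤ n, x = nu symLA S m := by
    intro x n
    induction n with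
    | zero =>
      rw [hz]
      refine (ea9 S hS x).trans ?_
      constructor
      · intro h
        exact ⟨0, le_rfl, by rw [h, hz]; rfl⟩
      · rintro ⟨m, hm, rfl⟩
        obtain rfl : m = 0 := by omega
        rw [hz]
        rfl
    | succ n ih =>
      rw [hsu]
      refine (ea10 S hS x _).trans ?_
      rw [ih]
      constructor
      · rintro (⟨m, hm, rfl⟩ | h)
        · exact ⟨m, by omega, rfl⟩
        · exact ⟨n + 1, le_rfl, by rw [h, hsu]; rfl⟩
      · rintro ⟨m, hm, rfl⟩
        rcases Nat.lt_or_ge n m with h | h
        · obtain rfl : m = n + 1 := by omega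
          right
          rw [hsu]
          rfl
        · exact Or.inl ⟨m, h, rfl⟩
  refine ⟨?_, ?_, ?_, hle, ?_⟩
  · intro m n
    induction n with
    | zero =>
      rw [hz]
      exact ea3 S hS _
    | succ n ih =>
      rw [hsu, ← add_assoc, hsu, ← ih]
      exact ea4 S hS _ _
  · intro m n
    induction n with
    | zero =>
      rw [mul_zero, hz]
      exact ea5 S hS _
    | succ n ih =>
      have hadd : ∀ m n, (Structure.funMap symLA.add ![nu symLA S m, nu symLA S n] : M) =
          nu symLA S (m + n) := by
        intro m n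
        induction n with
        | zero =>
          rw [hz]
          exact ea3 S hS _
        | succ n ih =>
          rw [hsu, ← add_assoc, hsu, ← ih]
          exact ea4 S hS _ _
      rw [hsu, mul_add, mul_one, ← hadd, ← ih]
      exact ea6 S hS _ _
  · intro m
    induction m with
    | zero =>
      intro n h
      cases n with
      | zero => rfl
      | succ n =>
        rw [hz, hsu] at h
        exact absurd h.symm (ea1 S hS _)
    | succ m ih =>
      intro n h
      cases n with
      | zero =>
        rw [hz, hsu] at h
        exact absurd h (ea1 S hS _)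
      | succ n =>
        rw [hsu, hsu] at h
        rw [ih (ea2 S hS _ _ h)]
  · intro x n
    let t : LA.Term (Empty ⊕ Fin 1) := (numeral symLA n).relabel Empty.elim
    have ht : ∀ xs : Fin 1 → M, t.realize (Sum.elim default xs) = nu symLA S n :=
      fun xs => realize_relabel_numeral symLA S _ n
    let φ : LA.BoundedFormula Empty 1 := leF (xv 0 0) t ⊔ leF t (xv 0 0)
    have hφ : IsBdd φ := IsBdd.imp (IsBdd.imp (IsBdd.rel _ _) IsBdd.falsum) (IsBdd.rel _ _)
    have hreal : ∀ y : M, φ.Realize default (fun _ => y) ↔
        (Structure.RelMap rL ![y, nu symLA S n] ∨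
          Structure.RelMap rL ![nu symLA S n, y]) := by
      intro y
      rw [BoundedFormula.realize_sup, realize_leF, realize_leF, ht]
      rfl
    refine (hreal x).1 (eaInd S hS φ hφ ?_ ?_ x)
    · rw [hreal]
      left
      rw [hle]
      exact ⟨0, Nat.zero_le _, by rw [hz]; rfl⟩
    · intro y hy
      rw [hreal] at hy ⊢
      rcases hy with hy | hy
      · rw [hle] at hy
        obtain ⟨m, hm, rfl⟩ := hy
        rcases Nat.lt_or_ge m n with h | h
        · left
          rw [hle]
          exact ⟨m + 1, h, by rw [hsu]; rfl⟩
        · right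
          obtain rfl : m = n := le_antisymm hm h
          have h2 := (hle (nu symLA S m) (m + 1)).2 ⟨m, by omega, rfl⟩
          rw [hsu] at h2
          exact h2
      · right
        exact (ea10 S hS _ _).2 (Or.inl hy)

end EAModels

theorem arith_EA : Arith symLA EA := fun _ S _ hS => good_EA S hS

end Pool.Agent.Helper83_TruthDef
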