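import Pool.Agent.Helper83_TruthDef.Defs

set_option autoImplicit false

/-!
# Elementary arithmetic
-/

namespace Pool.Agent.Helper83_TruthDef

open FirstOrder FirstOrder.Language

/-- The function symbols `0, S, +, ·, 2^x`. -/
inductive ArFun : ℕ → Type
  | zero : ArFun 0
  | succ : ArFun 1
  | add : ArFun 2
  | mul : ArFun 2
  | exp : ArFun 1

/-- The relation symbol `≤`. -/
inductive ArRel : ℕ → Type
  | le : ArRel 2

/-- The language `0, S, +, ·, 2^x, ≤`. -/
abbrev LA : FirstOrder.Language.{0, 0} := ⟨ArFun, ArRel⟩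

/-- The arithmetical symbols of `LA`. -/
def symLA : ArSym LA := ⟨.zero, .succ, .add, .mul, .le⟩

section

variable {γ : Type}

/-- `0` -/
def tZ : LA.Term γ := .func ArFun.zero ![]
/-- `S t` -/
def tS (t : LA.Term γ) : LA.Term γ := .func ArFun.succ ![t]
/-- `s + t` -/
def tAdd (s t : LA.Term γ) : LA.Term γ := .func ArFun.add ![s, t]
/-- `s · t` -/
def tMul (s t : LA.Term γ) : LA.Term γ := .func ArFun.mul ![s, t]
/-- `2 ^ t` -/
def tExp (t : LA.Term γ) : LA.Term γ := .func ArFun.exp ![t]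
/-- `s ≤ t` -/
def leF {n : ℕ} (s t : LA.Term (γ ⊕ Fin n)) : LA.BoundedFormula γ n := .rel ArRel.le ![s, t]

end

/-- The bound variable `x_i`, in a context of `n + 1` variables. -/
def xv (n : ℕ) (i : Fin (n + 1)) : LA.Term (Empty ⊕ Fin (n + 1)) := .var (.inr i)

/-- The open axioms of elementary arithmetic. -/
def basicAx : Set LA.Sentence :=
  { .all (.not (.equal (tS (xv 0 0)) tZ)),
    .all (.all (.imp (.equal (tS (xv 1 0)) (tS (xv 1 1))) (.equal (xv 1 0) (xv 1 1)))),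
    .all (.equal (tAdd (xv 0 0) tZ) (xv 0 0)),
    .all (.all (.equal (tAdd (xv 1 0) (tS (xv 1 1))) (tS (tAdd (xv 1 0) (xv 1 1))))),
    .all (.equal (tMul (xv 0 0) tZ) tZ),
    .all (.all (.equal (tMul (xv 1 0) (tS (xv 1 1))) (tAdd (tMul (xv 1 0) (xv 1 1)) (xv 1 0)))),
    .equal (tExp tZ) (tS tZ),
    .all (.equal (tExp (tS (xv 0 0))) (tAdd (tExp (xv 0 0)) (tExp (xv 0 0)))),
    .all (.iff (leF (xv 0 0) tZ) (.equal (xv 0 0) tZ)),
    .all (.all (.iff (leF (xv 1 0) (tS (xv 1 1)))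
      (leF (xv 1 0) (xv 1 1) ⊔ .equal (xv 1 0) (tS (xv 1 1))))) }

/-- Bounded (`Δ₀`) formulas: all quantifiers are of the form `∀ x ≤ t`, where `x` does not occur
in `t`. -/
inductive IsBdd : ∀ {n : ℕ}, LA.BoundedFormula Empty n → Prop
  | falsum {n : ℕ} : IsBdd (.falsum : LA.BoundedFormula Empty n)
  | equal {n : ℕ} (s t : LA.Term (Empty ⊕ Fin n)) : IsBdd (.equal s t)
  | rel {n l : ℕ} (r : LA.Relations l) (ts : Fin l → LA.Term (Empty ⊕ Fin n)) : IsBdd (.rel r ts)
  | imp {n : ℕ} {φ ψ : LA.BoundedFormula Empty n} : IsBdd φ → IsBdd ψ → IsBdd (.imp φ ψ)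
  | ball {n : ℕ} (t : LA.Term (Empty ⊕ Fin n)) {φ : LA.BoundedFormula Empty (n + 1)} :
      IsBdd φ → IsBdd (.all (.imp
        (leF (.var (.inr (Fin.last n))) (t.relabel (Sum.map id Fin.castSucc))) φ))

/-- The induction axiom for `φ(x_0, ..., x_{n-1}, x_n)` with respect to `x_n`:
`∀ x_0 ... x_{n-1}`, if `φ` holds at `x_n = 0`, and for every `x_n` with `φ` it holds at
`x_{n+1} = S x_n` in the place of `x_n`, then `φ` holds for every `x_n`. -/
def indAx {n : ℕ} (φ : LA.BoundedFormula Empty (n + 1)) : LA.Sentence :=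
  BoundedFormula.alls (.imp
    (.all (.imp (.equal (xv n (Fin.last n)) tZ) φ))
    (.imp
      (.all (.imp φ (.all (.imp
        (.equal (xv (n + 1) (Fin.last (n + 1))) (tS (xv (n + 1) (Fin.last n).castSucc)))
        (φ.liftAt 1 n)))))
      (.all φ)))

/-- Elementary arithmetic `EA = IΔ₀(exp)`. -/
def EA : LA.Theory :=
  basicAx ∪ {σ | ∃ (n : ℕ) (φ : LA.BoundedFormula Empty (n + 1)), IsBdd φ ∧ σ = indAx φ}

/-- The function symbols `0, S, +, ·`. -/
inductive ArFun0 : ℕ → Type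
  | zero : ArFun0 0
  | succ : ArFun0 1
  | add : ArFun0 2
  | mul : ArFun0 2

/-- The language `0, S, +, ·, ≤`. -/
abbrev LA0 : FirstOrder.Language.{0, 0} := ⟨ArFun0, ArRel⟩

/-- The arithmetical symbols of `LA0`. -/
def symLA0 : ArSym LA0 := ⟨.zero, .succ, .add, .mul, .le⟩

/-- The inclusion of `LA0` in `LA`. -/
noncomputable def incl : LA0 →ᴸ LA where
  onFunction := fun _ f =>
    ArFun0.rec (motive := fun n _ => ArFun n) ArFun.zero ArFun.succ ArFun.add ArFun.mul f
  onRelation := fun _ r => r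

/-- Elementary arithmetic in the language `0, S, +, ·, ≤`: the theorems of `EA` that do not
contain the symbol `2^x`. -/
def EA0 : LA0.Theory := {σ | EA ⊨ᵇ incl.onSentence σ}

end Pool.Agent.Helper83_TruthDef
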