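import Pool.Agent.Helper83_TruthDef.EA

set_option autoImplicit false

/-!
# The `exp`-free part of elementary arithmetic
-/

namespace Pool.Agent.Helper83_TruthDef

open FirstOrder FirstOrder.Language

section RAx

variable {L : FirstOrder.Language.{0, 0}} (A : ArSym L)

/-- the numeral in a context with one bound variable -/
def num1 (n : ℕ) : L.Term (Empty ⊕ Fin 1) := (numeral A n).relabel Empty.elim

/-- the bound variable -/
def bv : L.Term (Empty ⊕ Fin 1) := .var (.inr 0)

def rAdd (m n : ℕ) : L.Sentence :=
  (A.add.apply₂ (numeral A m) (numeral A n)).equal (numeral A (m + n))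

def rMul (m n : ℕ) : L.Sentence :=
  (A.mul.apply₂ (numeral A m) (numeral A n)).equal (numeral A (m * n))

def rEq (m n : ℕ) : L.Sentence := (numeral A m).equal (numeral A n)

noncomputable def rLe (n : ℕ) : L.Sentence :=
  .all (.iff (A.le.boundedFormula₂ bv (num1 A n))
    (BoundedFormula.iSup fun m : Fin (n + 1) => .equal bv (num1 A m)))

def rCmp (n : ℕ) : L.Sentence :=
  .all (A.le.boundedFormula₂ bv (num1 A n) ⊔ A.le.boundedFormula₂ (num1 A n) bv)

variable {M : Type} (S : L.Structure M)

theorem numeral_eq_nu (n : ℕ) (v : Empty → M) : (numeral A n).realize v = nu A S n := by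
  unfold nu
  congr 1
  funext e
  exact e.elim

theorem num1_eq_nu (n : ℕ) (v : Empty ⊕ Fin 1 → M) : (num1 A n).realize v = nu A S n := by
  unfold num1
  rw [Term.realize_relabel]
  exact numeral_eq_nu A S n _

theorem mod_rAdd (m n : ℕ) : Mod S (rAdd A m n) ↔
    Structure.funMap A.add ![nu A S m, nu A S n] = nu A S (m + n) := by
  unfold rAdd Mod Sentence.Realize
  rw [Formula.realize_equal, Term.realize_functions_apply₂, numeral_eq_nu, numeral_eq_nu,
    numeral_eq_nu]

theorem mod_rMul (m n : ℕ) : Mod S (rMul A m n) ↔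
    Structure.funMap A.mul ![nu A S m, nu A S n] = nu A S (m * n) := by
  unfold rMul Mod Sentence.Realize
  rw [Formula.realize_equal, Term.realize_functions_apply₂, numeral_eq_nu, numeral_eq_nu,
    numeral_eq_nu]

theorem mod_rEq (m n : ℕ) : Mod S (rEq A m n) ↔ nu A S m = nu A S n := by
  unfold rEq Mod Sentence.Realize
  rw [Formula.realize_equal, numeral_eq_nu, numeral_eq_nu]

theorem mod_rLe (n : ℕ) : Mod S (rLe A n) ↔
    ∀ x, (Structure.RelMap A.le ![x, nu A S n] ↔ ∃ m ≤ n, x = nu A S m) := by
  unfold rLe Mod Sentence.Realize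
  refine forall_congr' fun x => ?_
  rw [BoundedFormula.realize_iff, BoundedFormula.realize_rel₂, BoundedFormula.realize_iSup,
    num1_eq_nu]
  refine iff_congr Iff.rfl ?_
  constructor
  · rintro ⟨m, hm⟩
    change Term.realize _ _ = Term.realize _ _ at hm
    rw [num1_eq_nu] at hm
    exact ⟨m, by omega, hm⟩
  · rintro ⟨m, hm, h⟩
    refine ⟨⟨m, by omega⟩, ?_⟩
    change Term.realize _ _ = Term.realize _ _
    rw [num1_eq_nu]
    exact h

theorem mod_rCmp (n : ℕ) : Mod S (rCmp A n) ↔
    ∀ x, (Structure.RelMap A.le ![x, nu A S n] ∨ Structure.RelMap A.le ![nu A S n, x]) := by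
  unfold rCmp Mod Sentence.Realize
  refine forall_congr' fun x => ?_
  rw [BoundedFormula.realize_sup, BoundedFormula.realize_rel₂, BoundedFormula.realize_rel₂,
    num1_eq_nu]
  exact Iff.rfl

end RAx

theorem arith_EA0 : Arith symLA0 EA0 := by
  intro M S hne hS
  -- sentences true in the reducts of all models of EA
  have key : ∀ σ : LA0.Sentence, (∀ (N : Type) (S' : LA.Structure N), GoodM symLA S' →
      Mod (incl.reduct N) σ) → Mod S σ := by
    intro σ h
    refine hS σ ?_
    change EA ⊨ᵇ incl.onSentence σ
    rw [Theory.models_sentence_iff]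
    intro N
    have hgood : GoodM symLA (inferInstance : LA.Structure N) := by
      refine arith_EA N _ inferInstance fun τ hτ => ?_
      exact Theory.realize_sentence_of_mem EA hτ
    have h2 := h N _ hgood
    let _ := incl.reduct N
    have := incl.isExpansionOn_reduct N
    exact (LHom.realize_onSentence N incl σ).2 h2
  have hnu : ∀ (N : Type) (S' : LA.Structure N) (n : ℕ),
      nu symLA0 (incl.reduct N) n = nu symLA S' n := by
    intro N S' n
    induction n with
    | zero =>
      rw [nu_zero, nu_zero]
      rfl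
    | succ n ih =>
      rw [nu_succ, nu_succ, ih]
      rfl
  refine ⟨?_, ?_, ?_, ?_, ?_⟩
  · intro m n
    rw [← mod_rAdd]
    refine key _ fun N S' hg => ?_
    rw [mod_rAdd, hnu, hnu, hnu]
    exact hg.add m n
  · intro m n
    rw [← mod_rMul]
    refine key _ fun N S' hg => ?_
    rw [mod_rMul, hnu, hnu, hnu]
    exact hg.mul m n
  · intro m n h
    by_contra hmn
    have h2 : Mod S (rEq symLA0 m n).not := by
      refine key _ fun N S' hg => ?_
      intro h3
      have h4 := (mod_rEq symLA0 (incl.reduct N) m n).1 h3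
      rw [hnu, hnu] at h4
      exact hmn (hg.inj h4)
    exact h2 ((mod_rEq symLA0 S m n).2 h)
  · intro x n
    have h2 : Mod S (rLe symLA0 n) := by
      refine key _ fun N S' hg => ?_
      rw [mod_rLe]
      intro x
      simp only [hnu]
      exact hg.le_num x n
    exact (mod_rLe symLA0 S n).1 h2 x
  · intro x n
    have h2 : Mod S (rCmp symLA0 n) := by
      refine key _ fun N S' hg => ?_
      rw [mod_rCmp]
      intro x
      rw [hnu]
      exact hg.cmp x n
    exact (mod_rCmp symLA0 S n).1 h2 x

end Pool.Agent.Helper83_TruthDef
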