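import Pool.Agent.Helper83_TruthDef.Codes

set_option autoImplicit false

/-!
# The set of valid codes is the projection of a primitive recursive relation
-/

namespace Pool.Agent.Helper83_TruthDef

open Encodable

section Prim

variable {α : Type} [Primcodable α] {f g h : α → ℕ} {s L : α → List ℕ}

theorem prim_pair (hf : Primrec f) (hg : Primrec g) : Primrec fun x => Nat.pair (f x) (g x) :=
  Primrec₂.natPair.comp hf hg

theorem prim_mul6 (hf : Primrec f) : Primrec fun x => 6 * f x :=
  Primrec.nat_mul.comp (Primrec.const 6) hf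

theorem prim_addc (hf : Primrec f) (c : ℕ) : Primrec fun x => f x + c :=
  Primrec.nat_add.comp hf (Primrec.const c)

theorem prim_At (hf : Primrec f) (hs : Primrec s) : Primrec fun x => At (f x) (s x) :=
  prim_pair hf (Primrec.encode.comp hs)

theorem prim_cimp (hf : Primrec f) (hg : Primrec g) : Primrec fun x => cimp (f x) (g x) :=
  prim_addc (prim_mul6 (prim_pair hf hg)) 1

theorem prim_call (hf : Primrec f) (hg : Primrec g) : Primrec fun x => call (f x) (g x) :=
  prim_addc (prim_mul6 (prim_pair hf hg)) 2

theorem prim_ceq (hf : Primrec f) (hg : Primrec g) : Primrec fun x => ceq (f x) (g x) :=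
  prim_addc (prim_mul6 (prim_pair hf hg)) 3

theorem prim_csub (hs : Primrec s) (hg : Primrec g) : Primrec fun x => csub (s x) (g x) :=
  prim_addc (prim_mul6 (prim_pair (Primrec.encode.comp hs) hg)) 4

theorem prim_cfls (hf : Primrec f) : Primrec fun x => cfls (f x) :=
  prim_addc (prim_mul6 hf) 5

theorem prim_catom (hf : Primrec f) (hs : Primrec s) : Primrec fun x => catom (f x) (s x) :=
  prim_mul6 (prim_pair hf (Primrec.encode.comp hs))

theorem prim_wit (hf : Primrec f) (hg : Primrec g) (hs : Primrec s) :
    Primrec fun x => wit (f x) (g x) (s x) :=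
  prim_addc (prim_pair (prim_pair hf hg) (Primrec.encode.comp hs)) 1

theorem prim_getD (hs : Primrec s) (hf : Primrec f) : Primrec fun x => (s x).getD (f x) 0 :=
  (Primrec.list_getD 0).comp hs hf

theorem prim_upd (hs : Primrec s) (hf : Primrec f) (hg : Primrec g) :
    Primrec fun x => upd (s x) (f x) (g x) := by
  unfold upd
  refine Primrec.list_map (Primrec.list_range.comp (Primrec.nat_max.comp
    (Primrec.list_length.comp hs) (prim_addc hf 1))) ?_
  refine Primrec.ite (PrimrecRel.comp Primrec.eq Primrec.snd (hf.comp Primrec.fst))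
    (hg.comp Primrec.fst) ?_
  exact prim_getD (hs.comp Primrec.fst) Primrec.snd

theorem prim_vals (hL : Primrec L) (hs : Primrec s) : Primrec fun x => vals (L x) (s x) := by
  unfold vals
  refine Primrec.list_map hL ?_
  exact prim_getD (hs.comp Primrec.fst) Primrec.snd

theorem prim_two (hf : Primrec f) (hg : Primrec g) : Primrec fun x => [f x, g x] :=
  Primrec.list_cons.comp hf (Primrec.list_cons.comp hg (Primrec.const []))

theorem prim_cl1 (hf : Primrec f) (b : Bool) : Primrec fun x => [(f x, b)] :=
  Primrec.list_cons.comp (Primrec.pair hf (Primrec.const b)) (Primrec.const [])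

theorem prim_cl2 (hf : Primrec f) (hg : Primrec g) (b c : Bool) :
    Primrec fun x => [(f x, b), (g x, c)] :=
  Primrec.list_cons.comp (Primrec.pair hf (Primrec.const b)) (prim_cl1 hg c)

theorem prim_cl3 (hf : Primrec f) (hg : Primrec g) (hh : Primrec h) (b c d : Bool) :
    Primrec fun x => [(f x, b), (g x, c), (h x, d)] :=
  Primrec.list_cons.comp (Primrec.pair hf (Primrec.const b)) (prim_cl2 hg hh c d)

end Prim

/-- indices of clauses -/
abbrev Idx : Type := ℕ × ℕ × ℕ × ℕ × ℕ × List ℕ × List ℕ

/-- the clauses -/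
def clause (k t a b c d : ℕ) (s L : List ℕ) : List (ℕ × Bool) :=
  if t = 0 then [(At (cimp a b) s, false), (At a s, false), (At b s, true)]
  else if t = 1 then [(At (cimp a b) s, true), (At a s, true)]
  else if t = 2 then [(At (cimp a b) s, true), (At b s, false)]
  else if t = 3 then [(At (call c a) s, false), (At a (upd s c d), true)]
  else if t = 4 then [(At (call c a) s, true), (At a (upd s c (wit c a s)), false)]
  else if t = 5 then [(At (ceq c d) s, false), (At (ceq 0 1) [s.getD c 0, s.getD d 0], true)]
  else if t = 6 then [(At (ceq c d) s, true), (At (ceq 0 1) [s.getD c 0, s.getD d 0], false)]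
  else if t = 7 then [(At (ceq 0 1) [c, c], true)]
  else if t = 8 then [(At (ceq 0 1) [c, d], false), (At a (upd s b c), false),
    (At a (upd s b d), true)]
  else if t = 9 then [(At (csub L a) s, false), (At a (vals L s), true)]
  else if t = 10 then [(At (csub L a) s, true), (At a (vals L s), false)]
  else if t = 11 then [(At (catom c L) s, false),
    (At (catom c (List.range L.length)) (vals L s), true)]
  else if t = 12 then [(At (catom c L) s, true),
    (At (catom c (List.range L.length)) (vals L s), false)]
  else if t = 13 then [(At (cfls a) s, false)]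
  else [(At k [], false)]

theorem satC_ite {v : ℕ → Bool} {p : Prop} [Decidable p] {x y : List (ℕ × Bool)}
    (hx : SatC v x) (hy : SatC v y) : SatC v (if p then x else y) := by
  split_ifs
  · exact hx
  · exact hy

theorem satC2 {v : ℕ → Bool} {x y : ℕ} (h : v x = true → v y = true) :
    SatC v [(x, false), (y, true)] := by
  simp only [SatC, List.mem_cons, List.not_mem_nil, or_false, exists_eq_or_imp, exists_eq_left]
  revert h
  cases v x <;> simp

theorem satC3 {v : ℕ → Bool} {x y z : ℕ} (h : v x = true → v y = true → v z = true) :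
    SatC v [(x, false), (y, false), (z, true)] := by
  simp only [SatC, List.mem_cons, List.not_mem_nil, or_false, exists_eq_or_imp, exists_eq_left]
  revert h
  cases v x <;> cases v y <;> simp

theorem clause_hval (k : ℕ) (v : ℕ → Bool) :
    (∀ t a b c d s L, SatC v (clause k t a b c d s L)) ↔ (HVal v ∧ v (At k []) = false) := by
  constructor
  · intro h
    refine ⟨⟨?_, ?_, ?_, ?_, ?_, ?_, ?_, ?_, ?_, ?_, ?_, ?_, ?_, ?_⟩, ?_⟩
    · intro a b s h1 h2
      have := h 0 a b 0 0 s []
      simpa [clause, SatC, h1, h2] using this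
    · intro a b s
      have := h 1 a b 0 0 s []
      simpa [clause, SatC] using this
    · intro a b s
      have := h 2 a b 0 0 s []
      simpa [clause, SatC] using this
    · intro a c d s h1
      have := h 3 a 0 c d s []
      simpa [clause, SatC, h1] using this
    · intro a c s
      have := h 4 a 0 c 0 s []
      simpa [clause, SatC] using this
    · intro c d s h1
      have := h 5 0 0 c d s []
      simpa [clause, SatC, h1] using this
    · intro c d s
      have := h 6 0 0 c d s []
      simpa [clause, SatC] using this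
    · intro c
      have := h 7 0 0 c 0 [] []
      simpa [clause, SatC] using this
    · intro a b c d s h1 h2
      have := h 8 a b c d s []
      simpa [clause, SatC, h1, h2] using this
    · intro a s L h1
      have := h 9 a 0 0 0 s L
      simpa [clause, SatC, h1] using this
    · intro a s L
      have := h 10 a 0 0 0 s L
      simpa [clause, SatC] using this
    · intro c s L h1
      have := h 11 0 0 c 0 s L
      simpa [clause, SatC, h1] using this
    · intro c s L
      have := h 12 0 0 c 0 s L
      simpa [clause, SatC] using this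
    · intro x s
      have := h 13 x 0 0 0 s []
      simpa [clause, SatC] using this
    · have := h 14 0 0 0 0 [] []
      simpa [clause, SatC] using this
  · rintro ⟨hv, hk⟩ t a b c d s L
    unfold clause
    refine satC_ite ?_ ?_
    · exact satC3 (hv.imp1 a b s)
    refine satC_ite ?_ ?_
    · simpa [SatC] using hv.imp2 a b s
    refine satC_ite ?_ ?_
    · simpa [SatC] using hv.imp3 a b s
    refine satC_ite ?_ ?_
    · exact satC2 (hv.all a c d s)
    refine satC_ite ?_ ?_
    · simpa [SatC] using hv.witn a c s
    refine satC_ite ?_ ?_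
    · exact satC2 (hv.eq1 c d s)
    refine satC_ite ?_ ?_
    · simpa [SatC] using hv.eq2 c d s
    refine satC_ite ?_ ?_
    · simpa [SatC] using hv.refl c
    refine satC_ite ?_ ?_
    · exact satC3 (hv.congr a b c d s)
    refine satC_ite ?_ ?_
    · exact satC2 (hv.sub1 a s L)
    refine satC_ite ?_ ?_
    · simpa [SatC] using hv.sub2 a s L
    refine satC_ite ?_ ?_
    · exact satC2 (hv.atom1 c s L)
    refine satC_ite ?_ ?_
    · simpa [SatC] using hv.atom2 c s L
    refine satC_ite ?_ ?_
    · simpa [SatC] using hv.fls a s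
    · simpa [SatC] using hk

/-- the enumeration of the clauses -/
def cl (k n : ℕ) : List (ℕ × Bool) :=
  let x : Idx := Denumerable.ofNat Idx n
  clause k x.1 x.2.1 x.2.2.1 x.2.2.2.1 x.2.2.2.2.1 x.2.2.2.2.2.1 x.2.2.2.2.2.2

theorem cl_primrec : Primrec₂ cl := by
  have hx : Primrec fun p : ℕ × ℕ => Denumerable.ofNat Idx p.2 :=
    (Primrec.ofNat Idx).comp Primrec.snd
  have ht : Primrec fun p : ℕ × ℕ => (Denumerable.ofNat Idx p.2).1 := Primrec.fst.comp hx
  have h1 := Primrec.snd.comp hx
  have ha : Primrec fun p : ℕ × ℕ => (Denumerable.ofNat Idx p.2).2.1 := Primrec.fst.comp h1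
  have h2 := Primrec.snd.comp h1
  have hb : Primrec fun p : ℕ × ℕ => (Denumerable.ofNat Idx p.2).2.2.1 := Primrec.fst.comp h2
  have h3 := Primrec.snd.comp h2
  have hc : Primrec fun p : ℕ × ℕ => (Denumerable.ofNat Idx p.2).2.2.2.1 := Primrec.fst.comp h3
  have h4 := Primrec.snd.comp h3
  have hd : Primrec fun p : ℕ × ℕ => (Denumerable.ofNat Idx p.2).2.2.2.2.1 := Primrec.fst.comp h4
  have h5 := Primrec.snd.comp h4
  have hs : Primrec fun p : ℕ × ℕ => (Denumerable.ofNat Idx p.2).2.2.2.2.2.1 :=
    Primrec.fst.comp h5
  have hL : Primrec fun p : ℕ × ℕ => (Denumerable.ofNat Idx p.2).2.2.2.2.2.2 :=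
    Primrec.snd.comp h5
  have hk : Primrec fun p : ℕ × ℕ => p.1 := Primrec.fst
  have hE : ∀ m : ℕ, PrimrecPred fun p : ℕ × ℕ => (Denumerable.ofNat Idx p.2).1 = m :=
    fun m => PrimrecRel.comp Primrec.eq ht (Primrec.const m)
  have h01 : Primrec fun _ : ℕ × ℕ => ceq 0 1 := Primrec.const _
  have hrange : Primrec fun p : ℕ × ℕ =>
      List.range ((Denumerable.ofNat Idx p.2).2.2.2.2.2.2).length :=
    Primrec.list_range.comp (Primrec.list_length.comp hL)
  have hgg := prim_two (prim_getD hs hc) (prim_getD hs hd)
  unfold cl clause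
  refine Primrec.ite (hE 0) (prim_cl3 (prim_At (prim_cimp ha hb) hs) (prim_At ha hs)
    (prim_At hb hs) _ _ _) ?_
  refine Primrec.ite (hE 1) (prim_cl2 (prim_At (prim_cimp ha hb) hs) (prim_At ha hs) _ _) ?_
  refine Primrec.ite (hE 2) (prim_cl2 (prim_At (prim_cimp ha hb) hs) (prim_At hb hs) _ _) ?_
  refine Primrec.ite (hE 3) (prim_cl2 (prim_At (prim_call hc ha) hs)
    (prim_At ha (prim_upd hs hc hd)) _ _) ?_
  refine Primrec.ite (hE 4) (prim_cl2 (prim_At (prim_call hc ha) hs)
    (prim_At ha (prim_upd hs hc (prim_wit hc ha hs))) _ _) ?_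
  refine Primrec.ite (hE 5) (prim_cl2 (prim_At (prim_ceq hc hd) hs) (prim_At h01 hgg) _ _) ?_
  refine Primrec.ite (hE 6) (prim_cl2 (prim_At (prim_ceq hc hd) hs) (prim_At h01 hgg) _ _) ?_
  refine Primrec.ite (hE 7) (prim_cl1 (prim_At h01 (prim_two hc hc)) _) ?_
  refine Primrec.ite (hE 8) (prim_cl3 (prim_At h01 (prim_two hc hd))
    (prim_At ha (prim_upd hs hb hc)) (prim_At ha (prim_upd hs hb hd)) _ _ _) ?_
  refine Primrec.ite (hE 9) (prim_cl2 (prim_At (prim_csub hL ha) hs)
    (prim_At ha (prim_vals hL hs)) _ _) ?_
  refine Primrec.ite (hE 10) (prim_cl2 (prim_At (prim_csub hL ha) hs)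
    (prim_At ha (prim_vals hL hs)) _ _) ?_
  refine Primrec.ite (hE 11) (prim_cl2 (prim_At (prim_catom hc hL) hs)
    (prim_At (prim_catom hc hrange) (prim_vals hL hs)) _ _) ?_
  refine Primrec.ite (hE 12) (prim_cl2 (prim_At (prim_catom hc hL) hs)
    (prim_At (prim_catom hc hrange) (prim_vals hL hs)) _ _) ?_
  refine Primrec.ite (hE 13) (prim_cl1 (prim_At (prim_cfls ha) hs) _) ?_
  exact prim_cl1 (prim_At hk (Primrec.const [])) _

theorem valid_sig : Sig Valid := by
  have h := Sig.unsat cl_primrec
  have e : (fun k => ¬ ∃ v : ℕ → Bool, ∀ n, SatC v (cl k n)) = Valid := by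
    funext k
    rw [valid_iff]
    apply propext
    apply not_congr
    apply exists_congr
    intro v
    rw [← clause_hval k v]
    constructor
    · intro h t a b c d s L
      have := h (encode ((t, a, b, c, d, s, L) : Idx))
      simpa only [cl, Denumerable.ofNat_encode] using this
    · intro h n
      exact h _ _ _ _ _ _ _
  rw [e] at h
  exact h

end Pool.Agent.Helper83_TruthDef
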