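import Pool.Agent.Helper83_TruthDef.EA

set_option autoImplicit false

/-!
# Sanity check: the standard model satisfies `EA`
-/

namespace Pool.Agent.Helper83_TruthDef

open FirstOrder FirstOrder.Language

/-- the standard model -/
instance stdN : LA.Structure ℕ where
  funMap := fun {n} f =>
    match n, f with
    | _, .zero => fun _ => 0
    | _, .succ => fun v => v 0 + 1
    | _, .add => fun v => v 0 + v 1
    | _, .mul => fun v => v 0 * v 1
    | _, .exp => fun v => 2 ^ v 0
  RelMap := fun {n} r =>
    match n, r with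
    | _, .le => fun v => v 0 ≤ v 1

theorem stdN_basic : ∀ σ ∈ basicAx, Mod stdN σ := by
  intro σ hσ
  simp only [basicAx, Set.mem_insert_iff, Set.mem_singleton_iff] at hσ
  rcases hσ with rfl | rfl | rfl | rfl | rfl | rfl | rfl | rfl | rfl | rfl
  · intro x h
    have h' : x + 1 = 0 := h
    omega
  · intro x y h
    have h' : x + 1 = y + 1 := h
    have : x = y := by omega
    exact this
  · intro x
    exact Nat.add_zero x
  · intro x y
    have : x + (y + 1) = (x + y) + 1 := rfl
    exact this
  · intro x
    exact Nat.mul_zero x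
  · intro x y
    have : x * (y + 1) = x * y + x := rfl
    exact this
  · have : 2 ^ 0 = 0 + 1 := rfl
    exact this
  · intro x
    have : 2 ^ (x + 1) = 2 ^ x + 2 ^ x := by ring
    exact this
  · intro x
    rw [BoundedFormula.realize_iff]
    have : x ≤ 0 ↔ x = 0 := by omega
    exact this
  · intro x y
    rw [BoundedFormula.realize_iff, BoundedFormula.realize_sup]
    have : x ≤ y + 1 ↔ (x ≤ y ∨ x = y + 1) := by omega
    exact this

theorem stdN_ind {n : ℕ} (φ : LA.BoundedFormula Empty (n + 1)) : Mod stdN (indAx φ) := by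
  unfold Mod indAx Sentence.Realize
  rw [BoundedFormula.realize_alls]
  intro xs h0 hs x
  change φ.Realize _ (Fin.snoc xs x)
  induction x with
  | zero =>
    refine h0 0 ?_
    change (Fin.snoc xs (0 : ℕ) : Fin (n + 1) → ℕ) (Fin.last n) = 0
    simp
  | succ x ih =>
    have h1 := hs x ih (x + 1) ?_
    · rw [BoundedFormula.realize_liftAt_one (Nat.le_succ n)] at h1
      have e : ((Fin.snoc (Fin.snoc xs x : Fin (n + 1) → ℕ) (x + 1) : Fin (n + 2) → ℕ) ∘
          fun i : Fin (n + 1) => if (i : ℕ) < n then Fin.castSucc i else i.succ) =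
          Fin.snoc xs (x + 1) := by
        funext i
        refine Fin.lastCases ?_ (fun i => ?_) i
        · simp
        · simp
      rw [e] at h1
      exact h1
    · change (Fin.snoc (Fin.snoc xs x : Fin (n + 1) → ℕ) (x + 1) : Fin (n + 2) → ℕ)
        (Fin.last (n + 1)) = (Fin.snoc (Fin.snoc xs x : Fin (n + 1) → ℕ) (x + 1) :
          Fin (n + 2) → ℕ) (Fin.last n).castSucc + 1
      rw [Fin.snoc_last, Fin.snoc_castSucc, Fin.snoc_last]

/-- the standard model satisfies `EA` -/
theorem stdN_EA : ∀ σ ∈ EA, Mod stdN σ := by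
  rintro σ (hσ | ⟨n, φ, -, rfl⟩)
  · exact stdN_basic σ hσ
  · exact stdN_ind φ

end Pool.Agent.Helper83_TruthDef
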